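import Mathlib
import Pool.Prelude.Def_H_3587d628

/-!
# Composition of polynomial-time computable functions (two stack Turing machines in sequence)
-/

set_option autoImplicit false

namespace Pool.Agent.helper81.PolyComp

open Turing StateTransition Computability

/-! ## Runs of a partial step function -/

section Runs

variable {C D : Type}

/-- `Run f n a b`: `n` steps of `f` lead from `a` to `b`. -/
def Run (f : C → Option C) : ℕ → C → C → Prop
  | 0, a, b => a = b
  | n + 1, a, b => ∃ c, f a = some c ∧ Run f n c b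

theorem iterate_none (f : C → Option C) (n : ℕ) : (flip bind f)^[n] none = none := by
  induction n with
  | zero => rfl
  | succ n ih => rw [Function.iterate_succ_apply]; exact ih

theorem run_iff (f : C → Option C) (n : ℕ) (a b : C) :
    Run f n a b ↔ (flip bind f)^[n] (some a) = some b := by
  induction n generalizing a with
  | zero => simp [Run]
  | succ n ih =>
    rw [Function.iterate_succ_apply, Run]
    have h1 : flip bind f (some a) = f a := rfl
    rw [h1]
    cases h : f a with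
    | none =>
      rw [iterate_none]; simp
    | some c =>
      rw [← ih]
      constructor
      · rintro ⟨c', hc, hr⟩; cases hc; exact hr
      · intro hr; exact ⟨c, rfl, hr⟩

theorem run_trans {f : C → Option C} {m n : ℕ} {a b c : C} (h1 : Run f m a b) (h2 : Run f n b c) :
    Run f (m + n) a c := by
  induction m generalizing a with
  | zero => rw [Run] at h1; subst h1; simpa using h2
  | succ m ih =>
    obtain ⟨d, hd, hr⟩ := h1
    have : m + 1 + n = (m + n) + 1 := by omega
    rw [this]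
    exact ⟨d, hd, ih hr⟩

theorem run_map {f : C → Option C} {g : D → Option D} {e : C → D}
    (h : ∀ a b, f a = some b → g (e a) = some (e b)) {n : ℕ} {a b : C} (hr : Run f n a b) :
    Run g n (e a) (e b) := by
  induction n generalizing a with
  | zero => rw [Run] at hr ⊢; rw [hr]
  | succ n ih =>
    obtain ⟨d, hd, hr⟩ := hr
    exact ⟨e d, h _ _ hd, ih hr⟩

theorem run_len {f : C → Option C} (μ : C → ℕ) (c : ℕ) (h : ∀ a b, f a = some b → μ b ≤ μ a + c)
    {n : ℕ} {a b : C} (hr : Run f n a b) : μ b ≤ μ a + n * c := by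
  induction n generalizing a with
  | zero => rw [Run] at hr; rw [hr]; simp
  | succ n ih =>
    obtain ⟨d, hd, hr⟩ := hr
    have h1 := h _ _ hd
    have h2 := ih hr
    calc μ b ≤ μ d + n * c := h2
      _ ≤ μ a + c + n * c := by omega
      _ = μ a + (n + 1) * c := by ring

end Runs

/-! ## The combined machine, unbundled -/

section Unbundled

variable {K1 K2 : Type} {Γ1 : K1 → Type} {Γ2 : K2 → Type} {Λ1 Λ2 σ1 σ2 δ : Type}

/-- alphabets of the combined machine -/
abbrev CG (Γ1 : K1 → Type) (Γ2 : K2 → Type) (δ : Type) : K1 ⊕ (K2 ⊕ Unit) → Type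
  | Sum.inl k => Γ1 k
  | Sum.inr (Sum.inl k) => Γ2 k
  | Sum.inr (Sum.inr _) => δ

/-- stacks of the combined machine -/
def mkStk (S1 : ∀ k, List (Γ1 k)) (S2 : ∀ k, List (Γ2 k)) (a : List δ) :
    ∀ k, List (CG Γ1 Γ2 δ k)
  | Sum.inl k => S1 k
  | Sum.inr (Sum.inl k) => S2 k
  | Sum.inr (Sum.inr _) => a

section upd

variable [DecidableEq K1] [DecidableEq K2]

theorem update_mkStk_1 (S1 : ∀ k, List (Γ1 k)) (S2 : ∀ k, List (Γ2 k)) (a : List δ) (k : K1)
    (x : List (Γ1 k)) :
    Function.update (mkStk S1 S2 a) (Sum.inl k) x = mkStk (Function.update S1 k x) S2 a := by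
  funext j
  rcases j with j | j | j
  · by_cases h : j = k
    · subst h; simp [mkStk]
    · rw [Function.update_of_ne (by simpa using h)]
      simp [mkStk, Function.update_of_ne h]
  · rw [Function.update_of_ne (by simp)]; rfl
  · rw [Function.update_of_ne (by simp)]; rfl

theorem update_mkStk_2 (S1 : ∀ k, List (Γ1 k)) (S2 : ∀ k, List (Γ2 k)) (a : List δ) (k : K2)
    (x : List (Γ2 k)) :
    Function.update (mkStk S1 S2 a) (Sum.inr (Sum.inl k)) x
      = mkStk S1 (Function.update S2 k x) a := by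
  funext j
  rcases j with j | j | j
  · rw [Function.update_of_ne (by simp)]; rfl
  · by_cases h : j = k
    · subst h; simp [mkStk]
    · rw [Function.update_of_ne (by simpa using h)]
      simp [mkStk, Function.update_of_ne h]
  · rw [Function.update_of_ne (by simp)]; rfl

theorem update_mkStk_3 (S1 : ∀ k, List (Γ1 k)) (S2 : ∀ k, List (Γ2 k)) (a : List δ)
    (x : List δ) :
    Function.update (mkStk S1 S2 a) (Sum.inr (Sum.inr ())) x = mkStk S1 S2 x := by
  funext j
  rcases j with j | j | j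
  · rw [Function.update_of_ne (by simp)]; rfl
  · rw [Function.update_of_ne (by simp)]; rfl
  · simp [mkStk]

end upd

/-- statements of the first machine -/
def tr1 : TM2.Stmt Γ1 Λ1 σ1 →
    TM2.Stmt (CG Γ1 Γ2 δ) (Λ1 ⊕ (Bool ⊕ Λ2)) (σ1 × (σ2 × Option δ))
  | .push k f q => .push (.inl k) (fun v => f v.1) (tr1 q)
  | .peek k f q => .peek (.inl k) (fun v o => (f v.1 o, v.2)) (tr1 q)
  | .pop k f q => .pop (.inl k) (fun v o => (f v.1 o, v.2)) (tr1 q)
  | .load a q => .load (fun v => (a v.1, v.2)) (tr1 q)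
  | .branch p q1 q2 => .branch (fun v => p v.1) (tr1 q1) (tr1 q2)
  | .goto l => .goto (fun v => .inl (l v.1))
  | .halt => .goto (fun _ => .inr (.inl false))

/-- statements of the second machine -/
def tr2 : TM2.Stmt Γ2 Λ2 σ2 →
    TM2.Stmt (CG Γ1 Γ2 δ) (Λ1 ⊕ (Bool ⊕ Λ2)) (σ1 × (σ2 × Option δ))
  | .push k f q => .push (.inr (.inl k)) (fun v => f v.2.1) (tr2 q)
  | .peek k f q => .peek (.inr (.inl k)) (fun v o => (v.1, (f v.2.1 o, v.2.2))) (tr2 q)
  | .pop k f q => .pop (.inr (.inl k)) (fun v o => (v.1, (f v.2.1 o, v.2.2))) (tr2 q)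
  | .load a q => .load (fun v => (v.1, (a v.2.1, v.2.2))) (tr2 q)
  | .branch p q1 q2 => .branch (fun v => p v.2.1) (tr2 q1) (tr2 q2)
  | .goto l => .goto (fun v => .inr (.inr (l v.2.1)))
  | .halt => .halt

/-- embedding of configurations of the first machine -/
def emb1 (w : σ2 × Option δ) (S2 : ∀ k, List (Γ2 k)) (a : List δ)
    (c : TM2.Cfg Γ1 Λ1 σ1) :
    TM2.Cfg (CG Γ1 Γ2 δ) (Λ1 ⊕ (Bool ⊕ Λ2)) (σ1 × (σ2 × Option δ)) where
  l := some (match c.l with | some l => .inl l | none => .inr (.inl false))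
  var := (c.var, w)
  stk := mkStk c.stk S2 a

/-- embedding of configurations of the second machine -/
def emb2 (v : σ1) (w : Option δ) (S1 : ∀ k, List (Γ1 k)) (a : List δ)
    (c : TM2.Cfg Γ2 Λ2 σ2) :
    TM2.Cfg (CG Γ1 Γ2 δ) (Λ1 ⊕ (Bool ⊕ Λ2)) (σ1 × (σ2 × Option δ)) where
  l := match c.l with | some l => some (.inr (.inr l)) | none => none
  var := (v, (c.var, w))
  stk := mkStk S1 c.stk a

variable [DecidableEq K1] [DecidableEq K2]

theorem stepAux_tr1 (q : TM2.Stmt Γ1 Λ1 σ1) (v : σ1) (w : σ2 × Option δ)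
    (S1 : ∀ k, List (Γ1 k)) (S2 : ∀ k, List (Γ2 k)) (a : List δ) :
    TM2.stepAux (tr1 (Λ2 := Λ2) q) (v, w) (mkStk S1 S2 a) = emb1 w S2 a (TM2.stepAux q v S1) := by
  induction q generalizing v S1 with
  | push k f q ih =>
    rw [tr1, TM2.stepAux, TM2.stepAux, update_mkStk_1]; exact ih _ _
  | peek k f q ih =>
    rw [tr1, TM2.stepAux, TM2.stepAux]; exact ih _ _
  | pop k f q ih =>
    rw [tr1, TM2.stepAux, TM2.stepAux, update_mkStk_1]; exact ih _ _
  | load f q ih =>
    rw [tr1, TM2.stepAux, TM2.stepAux]; exact ih _ _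
  | branch p q1 q2 ih1 ih2 =>
    rw [tr1, TM2.stepAux, TM2.stepAux]
    dsimp only
    cases p v
    · exact ih2 _ _
    · exact ih1 _ _
  | goto l => rfl
  | halt => rfl

theorem stepAux_tr2 (q : TM2.Stmt Γ2 Λ2 σ2) (v : σ1) (u : σ2) (w : Option δ)
    (S1 : ∀ k, List (Γ1 k)) (S2 : ∀ k, List (Γ2 k)) (a : List δ) :
    TM2.stepAux (tr2 (Λ1 := Λ1) q) (v, (u, w)) (mkStk S1 S2 a)
      = emb2 v w S1 a (TM2.stepAux q u S2) := by
  induction q generalizing u S2 with
  | push k f q ih =>
    rw [tr2, TM2.stepAux, TM2.stepAux, update_mkStk_2]; exact ih _ _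
  | peek k f q ih =>
    rw [tr2, TM2.stepAux, TM2.stepAux]; exact ih _ _
  | pop k f q ih =>
    rw [tr2, TM2.stepAux, TM2.stepAux, update_mkStk_2]; exact ih _ _
  | load f q ih =>
    rw [tr2, TM2.stepAux, TM2.stepAux]; exact ih _ _
  | branch p q1 q2 ih1 ih2 =>
    rw [tr2, TM2.stepAux, TM2.stepAux]
    dsimp only
    cases p u
    · exact ih2 _ _
    · exact ih1 _ _
  | goto l => rfl
  | halt => rfl

/-- transfer from the output stack of the first machine to the auxiliary stack -/
def stA (k1 : K1) (t : Γ1 k1 → δ) (d : δ) :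
    TM2.Stmt (CG Γ1 Γ2 δ) (Λ1 ⊕ (Bool ⊕ Λ2)) (σ1 × (σ2 × Option δ)) :=
  .pop (.inl k1) (fun v (o : Option (Γ1 k1)) => (v.1, (v.2.1, o.map t)))
    (.branch (fun v => v.2.2.isSome)
      (.push (.inr (.inr ())) (fun v => (v.2.2.getD d : δ)) (.goto (fun _ => .inr (.inl false))))
      (.goto (fun _ => .inr (.inl true))))

/-- transfer from the auxiliary stack to the input stack of the second machine -/
def stB (k0 : K2) (t : δ → Γ2 k0) (d : δ) (l2 : Λ2) :
    TM2.Stmt (CG Γ1 Γ2 δ) (Λ1 ⊕ (Bool ⊕ Λ2)) (σ1 × (σ2 × Option δ)) :=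
  .pop (.inr (.inr ())) (fun v (o : Option δ) => (v.1, (v.2.1, o)))
    (.branch (fun v => v.2.2.isSome)
      (.push (.inr (.inl k0)) (fun v => (t (v.2.2.getD d) : Γ2 k0))
        (.goto (fun _ => .inr (.inl true))))
      (.goto (fun _ => .inr (.inr l2))))

/-- the program of the combined machine -/
def prog (m1 : Λ1 → TM2.Stmt Γ1 Λ1 σ1) (m2 : Λ2 → TM2.Stmt Γ2 Λ2 σ2) (k1 : K1) (k0 : K2)
    (t1 : Γ1 k1 → δ) (t2 : δ → Γ2 k0) (d : δ) (l2 : Λ2) :
    Λ1 ⊕ (Bool ⊕ Λ2) → TM2.Stmt (CG Γ1 Γ2 δ) (Λ1 ⊕ (Bool ⊕ Λ2)) (σ1 × (σ2 × Option δ))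
  | .inl l => tr1 (m1 l)
  | .inr (.inl false) => stA k1 t1 d
  | .inr (.inl true) => stB k0 t2 d l2
  | .inr (.inr l) => tr2 (m2 l)

section sim

variable (m1 : Λ1 → TM2.Stmt Γ1 Λ1 σ1) (m2 : Λ2 → TM2.Stmt Γ2 Λ2 σ2) (k1 : K1) (k0 : K2)
    (t1 : Γ1 k1 → δ) (t2 : δ → Γ2 k0) (d : δ) (l2 : Λ2)

theorem step_emb1 (w : σ2 × Option δ) (S2 : ∀ k, List (Γ2 k)) (a : List δ)
    (c c' : TM2.Cfg Γ1 Λ1 σ1) (h : TM2.step m1 c = some c') :
    TM2.step (prog m1 m2 k1 k0 t1 t2 d l2) (emb1 w S2 a c) = some (emb1 w S2 a c') := by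
  obtain ⟨l, v, S⟩ := c
  cases l with
  | none => rw [TM2.step] at h; cases h
  | some l =>
    rw [TM2.step] at h
    cases h
    rw [emb1]
    dsimp only
    rw [TM2.step, prog, stepAux_tr1]

theorem step_emb2 (v : σ1) (w : Option δ) (S1 : ∀ k, List (Γ1 k)) (a : List δ)
    (c c' : TM2.Cfg Γ2 Λ2 σ2) (h : TM2.step m2 c = some c') :
    TM2.step (prog m1 m2 k1 k0 t1 t2 d l2) (emb2 v w S1 a c) = some (emb2 v w S1 a c') := by
  obtain ⟨l, u, S⟩ := c
  cases l with
  | none => rw [TM2.step] at h; cases h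
  | some l =>
    rw [TM2.step] at h
    cases h
    rw [emb2]
    dsimp only
    rw [TM2.step, prog, stepAux_tr2]

theorem step_A_nil (S1 : ∀ k, List (Γ1 k)) (S2 : ∀ k, List (Γ2 k)) (v : σ1) (u : σ2)
    (w : Option δ) (acc : List δ) :
    TM2.step (prog m1 m2 k1 k0 t1 t2 d l2)
      ⟨some (.inr (.inl false)), (v, (u, w)), mkStk (Function.update S1 k1 []) S2 acc⟩ =
    some ⟨some (.inr (.inl true)), (v, (u, none)), mkStk (Function.update S1 k1 []) S2 acc⟩ := by
  have hk : mkStk (Function.update S1 k1 []) S2 acc (Sum.inl k1) = [] :=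
    Function.update_self _ _ _
  rw [TM2.step, prog, stA, TM2.stepAux, hk, update_mkStk_1]
  show some (⟨some (.inr (.inl true)), (v, (u, none)),
    mkStk (Function.update (Function.update S1 k1 []) k1 []) S2 acc⟩ :
      TM2.Cfg (CG Γ1 Γ2 δ) (Λ1 ⊕ (Bool ⊕ Λ2)) (σ1 × (σ2 × Option δ))) = _
  rw [Function.update_idem]

theorem step_A_cons (S1 : ∀ k, List (Γ1 k)) (S2 : ∀ k, List (Γ2 k)) (v : σ1) (u : σ2)
    (w : Option δ) (x : Γ1 k1) (L : List (Γ1 k1)) (acc : List δ) :
    TM2.step (prog m1 m2 k1 k0 t1 t2 d l2)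
      ⟨some (.inr (.inl false)), (v, (u, w)), mkStk (Function.update S1 k1 (x :: L)) S2 acc⟩ =
    some ⟨some (.inr (.inl false)), (v, (u, some (t1 x))),
      mkStk (Function.update S1 k1 L) S2 (t1 x :: acc)⟩ := by
  have hk : mkStk (Function.update S1 k1 (x :: L)) S2 acc (Sum.inl k1) = x :: L :=
    Function.update_self _ _ _
  rw [TM2.step, prog, stA, TM2.stepAux, hk, update_mkStk_1]
  show some (⟨some (.inr (.inl false)), (v, (u, some (t1 x))),
    Function.update (mkStk (Function.update (Function.update S1 k1 (x :: L)) k1 L) S2 acc)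
      (Sum.inr (Sum.inr ())) (t1 x :: acc)⟩ :
      TM2.Cfg (CG Γ1 Γ2 δ) (Λ1 ⊕ (Bool ⊕ Λ2)) (σ1 × (σ2 × Option δ))) = _
  rw [Function.update_idem, update_mkStk_3]

theorem step_B_nil (S1 : ∀ k, List (Γ1 k)) (S2 : ∀ k, List (Γ2 k)) (v : σ1) (u : σ2)
    (w : Option δ) (acc : List (Γ2 k0)) :
    TM2.step (prog m1 m2 k1 k0 t1 t2 d l2)
      ⟨some (.inr (.inl true)), (v, (u, w)), mkStk S1 (Function.update S2 k0 acc) []⟩ =
    some ⟨some (.inr (.inr l2)), (v, (u, none)), mkStk S1 (Function.update S2 k0 acc) []⟩ := by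
  have hk : mkStk S1 (Function.update S2 k0 acc) ([] : List δ) (Sum.inr (Sum.inr ())) = [] := rfl
  rw [TM2.step, prog, stB, TM2.stepAux, hk]
  show some (⟨some (.inr (.inr l2)), (v, (u, none)),
    Function.update (mkStk S1 (Function.update S2 k0 acc) []) (Sum.inr (Sum.inr ())) []⟩ :
      TM2.Cfg (CG Γ1 Γ2 δ) (Λ1 ⊕ (Bool ⊕ Λ2)) (σ1 × (σ2 × Option δ))) = _
  rw [update_mkStk_3]

theorem step_B_cons (S1 : ∀ k, List (Γ1 k)) (S2 : ∀ k, List (Γ2 k)) (v : σ1) (u : σ2)
    (w : Option δ) (x : δ) (L : List δ) (acc : List (Γ2 k0)) :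
    TM2.step (prog m1 m2 k1 k0 t1 t2 d l2)
      ⟨some (.inr (.inl true)), (v, (u, w)), mkStk S1 (Function.update S2 k0 acc) (x :: L)⟩ =
    some ⟨some (.inr (.inl true)), (v, (u, some x)),
      mkStk S1 (Function.update S2 k0 (t2 x :: acc)) L⟩ := by
  have hk : mkStk S1 (Function.update S2 k0 acc) (x :: L) (Sum.inr (Sum.inr ())) = x :: L := rfl
  rw [TM2.step, prog, stB, TM2.stepAux, hk]
  have h2 : Function.update (mkStk S1 (Function.update S2 k0 acc) (x :: L))
      (Sum.inr (Sum.inr ())) (x :: L).tail = mkStk S1 (Function.update S2 k0 acc) L :=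
    update_mkStk_3 _ _ _ _
  rw [h2]
  have h3 : mkStk S1 (Function.update S2 k0 acc) L (Sum.inr (Sum.inl k0)) = acc :=
    Function.update_self _ _ _
  show some (⟨some (.inr (.inl true)), (v, (u, some x)),
    Function.update (mkStk S1 (Function.update S2 k0 acc) L) (Sum.inr (Sum.inl k0))
      ((t2 x : Γ2 k0) :: mkStk S1 (Function.update S2 k0 acc) L (Sum.inr (Sum.inl k0)))⟩ :
      TM2.Cfg (CG Γ1 Γ2 δ) (Λ1 ⊕ (Bool ⊕ Λ2)) (σ1 × (σ2 × Option δ))) = _
  rw [h3]
  have := update_mkStk_2 (δ := δ) S1 (Function.update S2 k0 acc) L k0 (t2 x :: acc)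
  rw [Function.update_idem] at this
  rw [← this]

theorem run_A (S1 : ∀ k, List (Γ1 k)) (S2 : ∀ k, List (Γ2 k)) (v : σ1) (u : σ2) (w : Option δ)
    (L : List (Γ1 k1)) (acc : List δ) :
    Run (TM2.step (prog m1 m2 k1 k0 t1 t2 d l2)) (L.length + 1)
      ⟨some (.inr (.inl false)), (v, (u, w)), mkStk (Function.update S1 k1 L) S2 acc⟩
      ⟨some (.inr (.inl true)), (v, (u, none)),
        mkStk (Function.update S1 k1 []) S2 ((L.map t1).reverse ++ acc)⟩ := by
  induction L generalizing w acc with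
  | nil => exact ⟨_, step_A_nil _ _ _ _ _ _ _ _ _ _ _ _ _ _, by simp [Run.eq_def]⟩
  | cons x L ih =>
    refine ⟨_, step_A_cons _ _ _ _ _ _ _ _ _ _ _ _ _ _ _ _, ?_⟩
    have := ih (some (t1 x)) (t1 x :: acc)
    simpa using this

theorem run_B (S1 : ∀ k, List (Γ1 k)) (S2 : ∀ k, List (Γ2 k)) (v : σ1) (u : σ2) (w : Option δ)
    (L : List δ) (acc : List (Γ2 k0)) :
    Run (TM2.step (prog m1 m2 k1 k0 t1 t2 d l2)) (L.length + 1)
      ⟨some (.inr (.inl true)), (v, (u, w)), mkStk S1 (Function.update S2 k0 acc) L⟩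
      ⟨some (.inr (.inr l2)), (v, (u, none)),
        mkStk S1 (Function.update S2 k0 ((L.map t2).reverse ++ acc)) []⟩ := by
  induction L generalizing w acc with
  | nil => exact ⟨_, step_B_nil _ _ _ _ _ _ _ _ _ _ _ _ _ _, by simp [Run.eq_def]⟩
  | cons x L ih =>
    refine ⟨_, step_B_cons _ _ _ _ _ _ _ _ _ _ _ _ _ _ _ _, ?_⟩
    have := ih (some x) (t2 x :: acc)
    simpa using this

end sim

/-- number of pushes in a statement -/
def pushes : TM2.Stmt Γ1 Λ1 σ1 → ℕ
  | .push _ _ q => pushes q + 1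
  | .peek _ _ q => pushes q
  | .pop _ _ q => pushes q
  | .load _ q => pushes q
  | .branch _ q1 q2 => pushes q1 + pushes q2
  | .goto _ => 0
  | .halt => 0

theorem length_stepAux (q : TM2.Stmt Γ1 Λ1 σ1) (v : σ1) (S : ∀ k, List (Γ1 k)) (j : K1) :
    ((TM2.stepAux q v S).stk j).length ≤ (S j).length + pushes q := by
  induction q generalizing v S with
  | push k f q ih =>
    rw [TM2.stepAux, pushes]
    refine (ih _ _).trans ?_
    by_cases h : j = k
    · subst h; simp; omega
    · rw [Function.update_of_ne h]; omega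
  | peek k f q ih =>
    rw [TM2.stepAux, pushes]; exact ih _ _
  | pop k f q ih =>
    rw [TM2.stepAux, pushes]
    refine (ih _ _).trans ?_
    by_cases h : j = k
    · subst h; simp
    · rw [Function.update_of_ne h]
  | load f q ih =>
    rw [TM2.stepAux, pushes]; exact ih _ _
  | branch p q1 q2 ih1 ih2 =>
    rw [TM2.stepAux, pushes]
    cases p v
    · exact (ih2 _ _).trans (by omega)
    · exact (ih1 _ _).trans (by omega)
  | goto l => simp [TM2.stepAux, pushes]
  | halt => simp [TM2.stepAux, pushes]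

theorem length_step [Fintype Λ1] (m1 : Λ1 → TM2.Stmt Γ1 Λ1 σ1) (c c' : TM2.Cfg Γ1 Λ1 σ1)
    (h : TM2.step m1 c = some c') (j : K1) :
    (c'.stk j).length ≤ (c.stk j).length + ∑ l, pushes (m1 l) := by
  obtain ⟨l, v, S⟩ := c
  cases l with
  | none => rw [TM2.step] at h; cases h
  | some l =>
    rw [TM2.step] at h
    cases h
    refine (length_stepAux _ _ _ _).trans ?_
    show (S j).length + _ ≤ (S j).length + _
    have : pushes (m1 l) ≤ ∑ l, pushes (m1 l) :=
      Finset.single_le_sum (f := fun l => pushes (m1 l)) (fun _ _ => Nat.zero_le _)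
        (Finset.mem_univ l)
    omega

end Unbundled

/-! ## Bundled machines -/

theorem initList_eq (tm : FinTM2) (s : List (tm.Γ tm.k₀)) :
    initList tm s = ⟨some tm.main, tm.initialState,
      @Function.update tm.K (fun k => List (tm.Γ k)) tm.kDecidableEq (fun _ => []) tm.k₀ s⟩ := by
  unfold initList
  congr 1
  funext k
  by_cases h : k = tm.k₀
  · subst h; simp
  · rw [Function.update_of_ne h]; simp [h]

theorem haltList_eq (tm : FinTM2) (s : List (tm.Γ tm.k₁)) :
    haltList tm s = ⟨none, tm.initialState,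
      @Function.update tm.K (fun k => List (tm.Γ k)) tm.kDecidableEq (fun _ => []) tm.k₁ s⟩ := by
  unfold haltList
  congr 1
  funext k
  by_cases h : k = tm.k₁
  · subst h; simp
  · rw [Function.update_of_ne h]; simp [h]

/-- the combined machine: run the first machine, move its output to the input of the second
machine, run the second machine -/
def comb (M1 M2 : FinTM2) (t : M1.Γ M1.k₁ → M2.Γ M2.k₀) (d : M2.Γ M2.k₀) : FinTM2 :=
  letI := M1.kDecidableEq
  letI := M2.kDecidableEq
  letI := M1.kFin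
  letI := M2.kFin
  letI := M1.ΛFin
  letI := M2.ΛFin
  letI := M1.σFin
  letI := M2.σFin
  letI := M2.Γk₀Fin
  { K := M1.K ⊕ (M2.K ⊕ Unit)
    k₀ := .inl M1.k₀
    k₁ := .inr (.inl M2.k₁)
    Γ := CG M1.Γ M2.Γ (M2.Γ M2.k₀)
    Λ := M1.Λ ⊕ (Bool ⊕ M2.Λ)
    main := .inl M1.main
    σ := M1.σ × (M2.σ × Option (M2.Γ M2.k₀))
    initialState := (M1.initialState, (M2.initialState, none))
    Γk₀Fin := M1.Γk₀Fin
    m := prog M1.m M2.m M1.k₁ M2.k₀ t id d M2.main }

theorem comb_run (M1 M2 : FinTM2) (t : M1.Γ M1.k₁ → M2.Γ M2.k₀) (d : M2.Γ M2.k₀)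
    (x : List (M1.Γ M1.k₀)) (y : List (M1.Γ M1.k₁)) (z : List (M2.Γ M2.k₁)) (n1 n2 : ℕ)
    (h1 : Run M1.step n1 (initList M1 x) (haltList M1 y))
    (h2 : Run M2.step n2 (initList M2 (y.map t)) (haltList M2 z)) :
    Run (comb M1 M2 t d).step (n1 + (y.length + 1) + (y.length + 1) + n2)
      (initList (comb M1 M2 t d) x) (haltList (comb M1 M2 t d) z) := by
  rw [initList_eq, haltList_eq] at h1 h2 ⊢
  let _ := M1.kDecidableEq
  let _ := M2.kDecidableEq
  -- first machine
  have r1 := run_map (g := (comb M1 M2 t d).step)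
    (e := emb1 (Λ2 := M2.Λ) (M2.initialState, (none : Option (M2.Γ M2.k₀))) (fun _ => []) [])
    (fun a b h => step_emb1 M1.m M2.m M1.k₁ M2.k₀ t id d M2.main _ _ _ a b h) h1
  have r4 := run_map (g := (comb M1 M2 t d).step)
    (e := emb2 (Λ1 := M1.Λ) M1.initialState (none : Option (M2.Γ M2.k₀))
      (fun k => ([] : List (M1.Γ k))) [])
    (fun a b h => step_emb2 M1.m M2.m M1.k₁ M2.k₀ t id d M2.main _ _ _ _ a b h) h2
  have r2 := run_A M1.m M2.m M1.k₁ M2.k₀ t id d M2.main (fun _ => []) (fun _ => [])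
    M1.initialState M2.initialState none y []
  have r3 := run_B M1.m M2.m M1.k₁ M2.k₀ t id d M2.main (fun _ => []) (fun _ => [])
    M1.initialState M2.initialState none (y.map t).reverse []
  have e1 : Function.update (fun k => ([] : List (M1.Γ k))) M1.k₁ [] = fun _ => [] :=
    Function.update_eq_self _ _
  have e2 : Function.update (fun k => ([] : List (M2.Γ k))) M2.k₀ [] = fun _ => [] :=
    Function.update_eq_self _ _
  rw [e1] at r2
  rw [e2] at r3
  rw [List.append_nil] at r2 r3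
  rw [List.map_id, List.reverse_reverse, List.length_reverse, List.length_map] at r3
  have e3 := update_mkStk_1 (δ := M2.Γ M2.k₀) (fun k => ([] : List (M1.Γ k)))
    (fun k => ([] : List (M2.Γ k))) [] M1.k₀ x
  have e4 := update_mkStk_2 (δ := M2.Γ M2.k₀) (fun k => ([] : List (M1.Γ k)))
    (fun k => ([] : List (M2.Γ k))) [] M2.k₁ z
  have e5 : mkStk (δ := M2.Γ M2.k₀) (fun k => ([] : List (M1.Γ k)))
    (fun k => ([] : List (M2.Γ k))) [] = fun _ => [] := by
    funext k; rcases k with k | k | k <;> rfl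
  rw [e5] at e3 e4
  have r := run_trans (run_trans (run_trans r1 r2) r3) r4
  have g1 : (⟨some (comb M1 M2 t d).main, (comb M1 M2 t d).initialState,
      @Function.update (comb M1 M2 t d).K (fun k => List ((comb M1 M2 t d).Γ k))
        (comb M1 M2 t d).kDecidableEq (fun _ => []) (comb M1 M2 t d).k₀ x⟩ :
        (comb M1 M2 t d).Cfg)
      = emb1 (Λ2 := M2.Λ) (M2.initialState, (none : Option (M2.Γ M2.k₀))) (fun _ => []) []
        ⟨some M1.main, M1.initialState, Function.update (fun _ => []) M1.k₀ x⟩ := by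
    rw [emb1]
    dsimp only
    rw [← e3]
    rfl
  have g2 : (⟨none, (comb M1 M2 t d).initialState,
      @Function.update (comb M1 M2 t d).K (fun k => List ((comb M1 M2 t d).Γ k))
        (comb M1 M2 t d).kDecidableEq (fun _ => []) (comb M1 M2 t d).k₁ z⟩ :
        (comb M1 M2 t d).Cfg)
      = emb2 (Λ1 := M1.Λ) M1.initialState (none : Option (M2.Γ M2.k₀))
      (fun k => ([] : List (M1.Γ k))) []
        ⟨none, M2.initialState, Function.update (fun _ => []) M2.k₁ z⟩ := by
    rw [emb2]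
    dsimp only
    rw [← e4]
    rfl
  rw [g1, g2]
  exact r

/-! ## Polynomial time -/

theorem eval_mono (p : Polynomial ℕ) {m n : ℕ} (h : m ≤ n) : p.eval m ≤ p.eval n := by
  rw [Polynomial.eval_eq_sum_range, Polynomial.eval_eq_sum_range]
  exact Finset.sum_le_sum fun i _ => Nat.mul_le_mul_left _ (Nat.pow_le_pow_left h i)

theorem run_of_outputs {tm : FinTM2} {l : List (tm.Γ tm.k₀)} {l' : List (tm.Γ tm.k₁)} {m : ℕ}
    (h : TM2OutputsInTime tm l (some l') m) :
    ∃ n, n ≤ m ∧ Run tm.step n (initList tm l) (haltList tm l') := by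
  refine ⟨h.steps, h.steps_le_m, ?_⟩
  rw [run_iff]
  exact h.evals_in_steps

/-- composition of polynomial-time computable functions -/
theorem comp_general {α β γ αΓ βΓ γΓ : Type} [Inhabited βΓ] {eα : α → List αΓ}
    {eβ : β → List βΓ} {eγ : γ → List γΓ} {f : α → β} {g : β → γ}
    (h1 : TM2ComputableInPolyTime eα eβ f) (h2 : TM2ComputableInPolyTime eβ eγ g) :
    Nonempty (TM2ComputableInPolyTime eα eγ (fun x => g (f x))) := by
  let M1 := h1.tm
  let M2 := h2.tm
  let _ := M1.kDecidableEq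
  let _ := M1.ΛFin
  let t : M1.Γ M1.k₁ → M2.Γ M2.k₀ := fun a => h2.inputAlphabet.symm (h1.outputAlphabet a)
  let d : M2.Γ M2.k₀ := h2.inputAlphabet.symm default
  let c : ℕ := ∑ l, pushes (M1.m l)
  let q : Polynomial ℕ := Polynomial.X + h1.time * Polynomial.C c
  have key : ∀ a, ∃ n, n ≤ (h1.time + 2 * (q + 1) + h2.time.comp q).eval (eα a).length ∧
      Run (comb M1 M2 t d).step n
        (initList (comb M1 M2 t d) (List.map h1.inputAlphabet.invFun (eα a)))
        (haltList (comb M1 M2 t d) (List.map h2.outputAlphabet.invFun (eγ (g (f a))))) := by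
    intro a
    obtain ⟨n1, hn1, r1⟩ := run_of_outputs (h1.outputsFun a)
    obtain ⟨n2, hn2, r2⟩ := run_of_outputs (h2.outputsFun (f a))
    have hy : List.map t (List.map h1.outputAlphabet.invFun (eβ (f a)))
        = List.map h2.inputAlphabet.invFun (eβ (f a)) := by
      rw [List.map_map]
      apply List.map_congr_left
      intro b _
      simp [t]
    have hlen : (eβ (f a)).length ≤ q.eval (eα a).length := by
      have h := run_len (f := M1.step) (fun cf => (cf.stk M1.k₁).length) c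
        (fun x y hxy => length_step M1.m x y hxy M1.k₁) r1
      rw [initList_eq, haltList_eq] at h
      have h3 : ((Function.update (fun k => ([] : List (M1.Γ k))) M1.k₁
          (List.map h1.outputAlphabet.invFun (eβ (f a)))) M1.k₁).length = (eβ (f a)).length := by
        rw [Function.update_self, List.length_map]
      have h4 : ((Function.update (fun k => ([] : List (M1.Γ k))) M1.k₀
          (List.map h1.inputAlphabet.invFun (eα a))) M1.k₁).length ≤ (eα a).length := by
        by_cases hk : M1.k₁ = M1.k₀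
        · have : ∀ k, k = M1.k₀ → ((Function.update (fun k => ([] : List (M1.Γ k))) M1.k₀
            (List.map h1.inputAlphabet.invFun (eα a))) k).length = (eα a).length := by
            rintro k rfl
            rw [Function.update_self, List.length_map]
          rw [this _ hk]
        · rw [Function.update_of_ne hk]; simp
      have h5 : (eβ (f a)).length ≤ (eα a).length + n1 * c := by
        rw [← h3]
        exact h.trans (Nat.add_le_add_right h4 _)
      have h6 : n1 * c ≤ h1.time.eval (eα a).length * c := Nat.mul_le_mul_right _ hn1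
      simp only [q, Polynomial.eval_add, Polynomial.eval_X, Polynomial.eval_mul,
        Polynomial.eval_C]
      omega
    rw [← hy] at r2
    have r := comb_run M1 M2 t d _ _ _ n1 n2 r1 r2
    refine ⟨_, ?_, r⟩
    rw [List.length_map]
    have h7 : n2 ≤ h2.time.eval (q.eval (eα a).length) := hn2.trans (eval_mono _ hlen)
    rw [Polynomial.eval_add, Polynomial.eval_add, Polynomial.eval_comp, Polynomial.eval_mul,
      Polynomial.eval_add, Polynomial.eval_one]
    have h8 : (2 : Polynomial ℕ).eval (eα a).length = 2 := by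
      rw [show (2 : Polynomial ℕ) = Polynomial.C 2 from rfl, Polynomial.eval_C]
    rw [h8]
    omega
  choose n hn hr using key
  exact ⟨{ tm := comb M1 M2 t d
           inputAlphabet := h1.inputAlphabet
           outputAlphabet := h2.outputAlphabet
           time := h1.time + 2 * (q + 1) + h2.time.comp q
           outputsFun := fun a =>
            { steps := n a
              evals_in_steps := (run_iff _ _ _ _).1 (hr a)
              steps_le_m := hn a } }⟩

theorem isPolyTime_comp {α β γ : Type} [N487b59b3 α] [N487b59b3 β] [N487b59b3 γ] {f : α → β}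
    {g : β → γ} (hf : N68a2faeb.IsPolyTime f) (hg : N68a2faeb.IsPolyTime g) :
    N68a2faeb.IsPolyTime (fun x => g (f x)) := by
  obtain ⟨h1⟩ := hf
  obtain ⟨h2⟩ := hg
  exact comp_general h1 h2

end Pool.Agent.helper81.PolyComp
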