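import Mathlib

set_option autoImplicit false
open PowerSeries Finset
open scoped PowerSeries.WithPiTopology

namespace Pool.Agent.helper81

/-! Congruences of power series modulo a power of the variable, the Euler product and the
Gauss identity for the cube of the Euler product over the field with two elements. -/

section Cong
variable {R : Type*} [CommRing R]

/-- Congruence of power series modulo `X ^ k`. -/
def Cg (k : ℕ) (a b : R⟦X⟧) : Prop := (X : R⟦X⟧) ^ k ∣ a - b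

lemma Cg.refl (k : ℕ) (a : R⟦X⟧) : Cg k a a := by simp [Cg]

lemma Cg.symm {k : ℕ} {a b : R⟦X⟧} (h : Cg k a b) : Cg k b a := by
  unfold Cg at *
  rw [← neg_sub]
  exact (dvd_neg).mpr h

lemma Cg.trans {k : ℕ} {a b c : R⟦X⟧} (h : Cg k a b) (h' : Cg k b c) : Cg k a c := by
  unfold Cg at *
  have := dvd_add h h'
  rwa [sub_add_sub_cancel] at this

lemma Cg.mono {k l : ℕ} {a b : R⟦X⟧} (h : Cg k a b) (hl : l ≤ k) : Cg l a b :=
  (pow_dvd_pow _ hl).trans h

lemma Cg.mul {k : ℕ} {a b c d : R⟦X⟧} (h : Cg k a b) (h' : Cg k c d) :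
    Cg k (a * c) (b * d) := by
  unfold Cg at *
  have h1 := dvd_add (Dvd.dvd.mul_right h c) (Dvd.dvd.mul_left h' b)
  have : a * c - b * d = (a - b) * c + b * (c - d) := by ring
  rwa [this]

lemma Cg.add {k : ℕ} {a b c d : R⟦X⟧} (h : Cg k a b) (h' : Cg k c d) :
    Cg k (a + c) (b + d) := by
  unfold Cg at *
  have h1 := dvd_add h h'
  have : a + c - (b + d) = (a - b) + (c - d) := by ring
  rwa [this]

lemma Cg.pow {k : ℕ} {a b : R⟦X⟧} (h : Cg k a b) (n : ℕ) : Cg k (a ^ n) (b ^ n) := by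
  induction n with
  | zero => simpa using Cg.refl k (1 : R⟦X⟧)
  | succ n ih => simpa only [pow_succ] using ih.mul h

lemma Cg.prod {ι : Type*} {k : ℕ} (s : Finset ι) {f g : ι → R⟦X⟧}
    (h : ∀ i ∈ s, Cg k (f i) (g i)) : Cg k (∏ i ∈ s, f i) (∏ i ∈ s, g i) := by
  classical
  induction s using Finset.induction_on with
  | empty => simpa using Cg.refl k (1 : R⟦X⟧)
  | insert a s ha ih =>
    rw [prod_insert ha, prod_insert ha]
    exact (h a (mem_insert_self a s)).mul (ih fun i hi => h i (mem_insert_of_mem hi))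

lemma Cg.coeff_eq {k : ℕ} {a b : R⟦X⟧} (h : Cg k a b) {n : ℕ} (hn : n < k) :
    coeff n a = coeff n b := by
  have := (X_pow_dvd_iff.mp h) n hn
  rwa [map_sub, sub_eq_zero] at this

lemma cg_iff {k : ℕ} {a b : R⟦X⟧} : Cg k a b ↔ ∀ n < k, coeff n a = coeff n b := by
  constructor
  · intro h n hn; exact h.coeff_eq hn
  · intro h
    refine X_pow_dvd_iff.mpr fun n hn => ?_
    rw [map_sub, h n hn, sub_self]

lemma eq_of_forall_cg {a b : R⟦X⟧} (h : ∀ k, Cg k a b) : a = b := by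
  ext n
  exact (h (n + 1)).coeff_eq (Nat.lt_succ_self n)

lemma Cg.map {S : Type*} [CommRing S] (f : R →+* S) {k : ℕ} {a b : R⟦X⟧} (h : Cg k a b) :
    Cg k (PowerSeries.map f a) (PowerSeries.map f b) := by
  rw [cg_iff] at *
  intro n hn
  simp [h n hn]

lemma Cg.expand {k : ℕ} {a b : R⟦X⟧} (h : Cg k a b) (p : ℕ) (hp : p ≠ 0) :
    Cg (p * k) (PowerSeries.expand p hp a) (PowerSeries.expand p hp b) := by
  unfold Cg at *
  obtain ⟨c, hc⟩ := h
  refine ⟨PowerSeries.expand p hp c, ?_⟩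
  rw [← map_sub, hc, map_mul, map_pow, expand_X, pow_mul]

end Cong

/-- The truncated Euler product. -/
noncomputable def Efin (R : Type*) [CommRing R] (N : ℕ) : R⟦X⟧ :=
  ∏ i ∈ range N, (1 - (X : R⟦X⟧) ^ (i + 1))

lemma efin_cg_succ (R : Type*) [CommRing R] (N : ℕ) :
    Cg (N + 1) (Efin R (N + 1)) (Efin R N) := by
  unfold Cg Efin
  rw [prod_range_succ]
  exact ⟨-∏ i ∈ range N, (1 - (X : R⟦X⟧) ^ (i + 1)), by ring⟩

lemma efin_cg (R : Type*) [CommRing R] {N M : ℕ} (h : N ≤ M) :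
    Cg (N + 1) (Efin R M) (Efin R N) := by
  induction M, h using Nat.le_induction with
  | base => exact Cg.refl _ _
  | succ M hM ih => exact ((efin_cg_succ R M).mono (by omega)).trans ih

lemma euler_cg (R : Type*) [CommRing R] (N : ℕ) :
    Cg (N + 1) (pentagonalSeries R) (Efin R N) := by
  rw [cg_iff]
  intro n hn
  obtain ⟨s, hs⟩ := Filter.eventually_atTop.mp (coeff_prod_one_sub_X_pow_eventually_eq R n)
  have h1 := hs (range (max N (s.sup id + 1))) (by
    intro x hx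
    have : x ≤ s.sup id := Finset.le_sup (f := id) hx
    simp only [Finset.mem_range]
    omega)
  rw [← h1]
  exact (efin_cg R (N := N) (M := max N (s.sup id + 1)) (le_max_left _ _)).coeff_eq hn

/-! ### The identity of Shanks -/
section Shanks
variable {A : Type*} [CommRing A]

/-- Odd part of the truncated product. -/
def Osh (q : A) (n : ℕ) : A := ∏ j ∈ range n, (1 - q ^ (2 * j + 1))

/-- Even part of the truncated product. -/
def Wsh (q : A) (s n : ℕ) : A := ∏ j ∈ Ico s n, (1 - q ^ (2 * j + 2))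

lemma Osh_succ (q : A) (n : ℕ) : Osh q (n + 1) = Osh q n * (1 - q ^ (2 * n + 1)) := by
  unfold Osh; rw [prod_range_succ]

lemma Wsh_self (q : A) (n : ℕ) : Wsh q n n = 1 := by simp [Wsh]

lemma Wsh_succ_right (q : A) {s n : ℕ} (h : s ≤ n) :
    Wsh q s (n + 1) = Wsh q s n * (1 - q ^ (2 * n + 2)) := by
  unfold Wsh; rw [prod_Ico_succ_top h]

lemma Wsh_left (q : A) {s n : ℕ} (h : s < n) :
    Wsh q s n = (1 - q ^ (2 * s + 2)) * Wsh q (s + 1) n := by
  unfold Wsh; rw [prod_eq_prod_Ico_succ_bot h]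

lemma shanks_tele (q : A) (n : ℕ) : ∀ t, t ≤ n →
    ∑ s ∈ range (t + 1), Wsh q s n * Osh q s * q ^ (s * (2 * n + 1)) *
      ((1 - q ^ (2 * n + 2)) * q ^ (2 * s) - (1 - q ^ (2 * n + 1))) =
    Wsh q t n * Osh q (t + 1) * q ^ ((t + 1) * (2 * n + 1)) := by
  intro t
  induction t with
  | zero =>
    intro _
    simp only [zero_add, range_one, sum_singleton, Osh_succ, Nat.mul_zero, Nat.zero_mul, pow_zero,
      one_mul, mul_one]
    ring
  | succ t ih =>
    intro ht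
    rw [sum_range_succ, ih (by omega), Wsh_left q (show t < n by omega), Osh_succ q (t + 1)]
    have e1 : q ^ ((t + 1 + 1) * (2 * n + 1)) = q ^ ((t + 1) * (2 * n + 1)) * q ^ (2 * n + 1) := by
      rw [← pow_add]; congr 1; ring
    have e2 : q ^ (2 * n + 2) = q ^ (2 * n + 1) * q := by rw [← pow_succ]
    have e3 : q ^ (2 * (t + 1) + 1) = q ^ (2 * (t + 1)) * q := by rw [← pow_succ]
    have e4 : 2 * t + 2 = 2 * (t + 1) := by ring
    rw [e1, e2, e3, e4]
    ring

lemma shanks (q : A) : ∀ n : ℕ,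
    ∑ s ∈ range (n + 1), Wsh q s n * Osh q s * q ^ (s * (2 * n + 1)) =
    Osh q n * ∑ s ∈ range (2 * n + 1), q ^ (s * (s + 1) / 2) := by
  intro n
  induction n with
  | zero => simp [Osh, Wsh]
  | succ n ih =>
    rw [sum_range_succ]
    have h1 : ∑ s ∈ range (n + 1), Wsh q s (n + 1) * Osh q s * q ^ (s * (2 * (n + 1) + 1)) =
        ∑ s ∈ range (n + 1), Wsh q s n * Osh q s * q ^ (s * (2 * n + 1)) *
          ((1 - q ^ (2 * n + 2)) * q ^ (2 * s) - (1 - q ^ (2 * n + 1))) +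
        (1 - q ^ (2 * n + 1)) *
          ∑ s ∈ range (n + 1), Wsh q s n * Osh q s * q ^ (s * (2 * n + 1)) := by
      rw [mul_sum, ← sum_add_distrib]
      refine sum_congr rfl fun s hs => ?_
      rw [Wsh_succ_right q (by simpa [Nat.lt_succ_iff] using hs)]
      have e1 : q ^ (s * (2 * (n + 1) + 1)) = q ^ (s * (2 * n + 1)) * q ^ (2 * s) := by
        rw [← pow_add]; congr 1; ring
      rw [e1]; ring
    have h0 : ∑ s ∈ range (2 * (n + 1) + 1), q ^ (s * (s + 1) / 2) =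
        ∑ s ∈ range (2 * n + 1), q ^ (s * (s + 1) / 2) + q ^ ((2 * n + 1) * (2 * n + 1 + 1) / 2)
          + q ^ ((2 * n + 1 + 1) * (2 * n + 1 + 1 + 1) / 2) := by
      rw [show 2 * (n + 1) + 1 = (2 * n + 1) + 1 + 1 by ring, sum_range_succ, sum_range_succ]
    rw [h1, shanks_tele q n n le_rfl, ih, Wsh_self, Wsh_self, h0, Osh_succ]
    have e1 : (2 * n + 1) * (2 * n + 1 + 1) / 2 = (n + 1) * (2 * n + 1) := by
      rw [show (2 * n + 1) * (2 * n + 1 + 1) = 2 * ((n + 1) * (2 * n + 1)) by ring]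
      exact Nat.mul_div_cancel_left _ (by norm_num)
    have e2 : (2 * n + 1 + 1) * (2 * n + 1 + 1 + 1) / 2 = (n + 1) * (2 * n + 1 + 1 + 1) := by
      rw [show (2 * n + 1 + 1) * (2 * n + 1 + 1 + 1) = 2 * ((n + 1) * (2 * n + 1 + 1 + 1)) by ring]
      exact Nat.mul_div_cancel_left _ (by norm_num)
    rw [e1, e2]
    ring

end Shanks

/-! ### Over the field with two elements -/

/-- The Euler series over `ZMod 2`. -/
noncomputable abbrev EE : (ZMod 2)⟦X⟧ := pentagonalSeries (ZMod 2)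

/-- The generating series of the partition numbers modulo 2. -/
noncomputable def PP : (ZMod 2)⟦X⟧ := PowerSeries.mk fun n => (Fintype.card (Nat.Partition n) : ZMod 2)

lemma two_eq_zero' : (2 : (ZMod 2)⟦X⟧) = 0 := by
  have h : (2 : ZMod 2) = 0 := by decide
  have h2 : (2 : (ZMod 2)⟦X⟧) = C (2 : ZMod 2) := (map_ofNat (C (R := ZMod 2)) 2).symm
  rw [h2, h, map_zero]

lemma add_self' (a : (ZMod 2)⟦X⟧) : a + a = 0 := by
  rw [← two_mul, two_eq_zero', zero_mul]

lemma neg_eq' (a : (ZMod 2)⟦X⟧) : -a = a := by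
  rw [neg_eq_iff_add_eq_zero, add_self']

lemma sub_eq' (a b : (ZMod 2)⟦X⟧) : a - b = a + b := by
  rw [sub_eq_add_neg, neg_eq']

lemma PP_mul_EE : PP * EE = 1 := by
  let _ : TopologicalSpace (ZMod 2) := ⊥
  have _ : DiscreteTopology (ZMod 2) := ⟨rfl⟩
  have h1 := Nat.Partition.hasProd_powerSeriesMk_card_restricted (ZMod 2) (fun _ => True)
  have h2 := PowerSeries.WithPiTopology.hasProd_one_sub_X_pow (ZMod 2)
  have h3 : (PowerSeries.mk fun n ↦ ((Nat.Partition.restricted n (fun _ => True)).card : ZMod 2))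
      = PP := by
    unfold PP
    ext n
    simp [Nat.Partition.restricted, Finset.card_univ]
  rw [h3] at h1
  have h4 := h1.mul h2
  have h5 : (fun i : ℕ => (if (fun _ : ℕ => True) (i + 1) then ∑' j : ℕ, (X : (ZMod 2)⟦X⟧) ^ ((i + 1) * j) else 1) *
      (1 - X ^ (i + 1))) = fun _ => 1 := by
    funext i
    simp only [if_true]
    simp_rw [pow_mul]
    exact PowerSeries.WithPiTopology.tsum_pow_mul_one_sub_of_constantCoeff_eq_zero (by simp)
  have h6 : HasProd (fun _ : ℕ => (1 : (ZMod 2)⟦X⟧)) (PP * EE) := by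
    rw [← h5]; exact h4
  exact h6.unique hasProd_one

lemma EE_ne_zero : EE ≠ 0 := by
  intro h
  have := PP_mul_EE
  rw [h, mul_zero] at this
  exact zero_ne_one this

lemma Wsh_zero_eq (n : ℕ) : Wsh (X : (ZMod 2)⟦X⟧) 0 n = Efin (ZMod 2) n ^ 2 := by
  unfold Wsh Efin
  rw [← prod_pow, Nat.Ico_zero_eq_range]
  refine prod_congr rfl fun j _ => ?_
  have h : (1 - (X : (ZMod 2)⟦X⟧) ^ (j + 1)) ^ 2
      = 1 - X ^ (2 * j + 2) + 2 * (X ^ (2 * j + 2) - X ^ (j + 1)) := by ring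
  rw [h, two_eq_zero', zero_mul, add_zero]

lemma Osh_mul_Wsh {R : Type*} [CommRing R] (n : ℕ) :
    Osh (X : R⟦X⟧) n * Wsh (X : R⟦X⟧) 0 n = Efin R (2 * n) := by
  induction n with
  | zero => simp [Osh, Wsh, Efin]
  | succ n ih =>
    rw [Osh_succ, Wsh_succ_right _ (Nat.zero_le n)]
    unfold Efin at *
    rw [show 2 * (n + 1) = 2 * n + 1 + 1 by ring, prod_range_succ, prod_range_succ, ← ih]
    ring

/-- The cube of the Euler series is, modulo `X ^ (2n+1)`, the sum of `X` to the triangular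
numbers. -/
lemma EE_cube_cg (n : ℕ) :
    Cg (2 * n + 1) (EE ^ 3) (∑ s ∈ range (2 * n + 1), (X : (ZMod 2)⟦X⟧) ^ (s * (s + 1) / 2)) := by
  set T : (ZMod 2)⟦X⟧ := ∑ s ∈ range (2 * n + 1), (X : (ZMod 2)⟦X⟧) ^ (s * (s + 1) / 2) with hT
  have h1 := shanks (X : (ZMod 2)⟦X⟧) n
  rw [← hT] at h1
  -- the left side is congruent to its first term
  have h2 : Cg (2 * n + 1)
      (∑ s ∈ range (n + 1), Wsh (X : (ZMod 2)⟦X⟧) s n * Osh (X : (ZMod 2)⟦X⟧) s *
        (X : (ZMod 2)⟦X⟧) ^ (s * (2 * n + 1))) (Wsh (X : (ZMod 2)⟦X⟧) 0 n) := by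
    rw [sum_range_succ']
    simp only [Nat.zero_mul, pow_zero, mul_one]
    have : Osh (X : (ZMod 2)⟦X⟧) 0 = 1 := by simp [Osh]
    rw [this, mul_one]
    unfold Cg
    rw [add_sub_cancel_right]
    refine dvd_sum fun s _ => ?_
    refine Dvd.dvd.mul_left ?_ _
    refine pow_dvd_pow _ ?_
    nlinarith
  rw [h1] at h2
  have h3 : Cg (2 * n + 1) (Efin (ZMod 2) (2 * n) * T) (Efin (ZMod 2) n ^ 4) := by
    have := h2.mul (Cg.refl (2 * n + 1) (Wsh (X : (ZMod 2)⟦X⟧) 0 n))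
    have e : Osh (X : (ZMod 2)⟦X⟧) n * T * Wsh (X : (ZMod 2)⟦X⟧) 0 n
        = Efin (ZMod 2) (2 * n) * T := by
      rw [← Osh_mul_Wsh]; ring
    rw [e, Wsh_zero_eq] at this
    convert this using 1
    ring
  have h4 : Cg (2 * n + 1) (EE * T) (Efin (ZMod 2) (2 * n) * T) :=
    (euler_cg (ZMod 2) (2 * n)).mul (Cg.refl _ _)
  have h5 : Cg (2 * n + 1) (EE ^ 4) (Efin (ZMod 2) n ^ 4) := by
    have h6 := euler_cg (ZMod 2) n
    have h7 : Cg (2 * (n + 1)) (EE ^ 2) (Efin (ZMod 2) n ^ 2) := by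
      unfold Cg at *
      have e : EE ^ 2 - Efin (ZMod 2) n ^ 2 = (EE - Efin (ZMod 2) n) ^ 2 := by
        rw [sub_eq', sub_eq']
        have : (EE + Efin (ZMod 2) n) ^ 2 = EE ^ 2 + Efin (ZMod 2) n ^ 2
            + 2 * (EE * Efin (ZMod 2) n) := by ring
        rw [this, two_eq_zero', zero_mul, add_zero]
      rw [e, mul_comm 2, pow_mul]
      exact pow_dvd_pow_of_dvd h6 2
    have h8 := (h7.mono (show 2 * n + 1 ≤ 2 * (n + 1) by omega)).pow 2
    rw [← pow_mul, ← pow_mul] at h8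
    exact h8
  have h9 : Cg (2 * n + 1) (EE * T) (EE ^ 4) := (h4.trans h3).trans h5.symm
  have h10 := (Cg.refl (2 * n + 1) PP).mul h9
  have e1 : PP * (EE * T) = T := by rw [← mul_assoc, PP_mul_EE, one_mul]
  have e2 : PP * EE ^ 4 = EE ^ 3 := by
    rw [show EE ^ 4 = EE * EE ^ 3 by ring, ← mul_assoc, PP_mul_EE, one_mul]
  rw [e1, e2] at h10
  exact h10.symm

lemma tri_mod (s : ℕ) : (s * (s + 1) / 2) % 5 ≠ 2 := by
  have h : 2 * (s * (s + 1) / 2) = s * (s + 1) := Nat.mul_div_cancel' (Nat.even_mul_succ_self s).two_dvd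
  intro h2
  have h3 : (s * (s + 1)) % 5 = 4 := by omega
  have h4 : s % 5 = 0 ∨ s % 5 = 1 ∨ s % 5 = 2 ∨ s % 5 = 3 ∨ s % 5 = 4 := by omega
  rcases h4 with h | h | h | h | h <;> simp [Nat.mul_mod, Nat.add_mod, h] at h3

lemma coeff_EE_cube {m : ℕ} (hm : m % 5 = 2) : coeff m (EE ^ 3) = 0 := by
  rw [(EE_cube_cg m).coeff_eq (show m < 2 * m + 1 by omega), map_sum]
  refine sum_eq_zero fun s _ => ?_
  rw [coeff_X_pow, if_neg]
  intro h
  exact tri_mod s (by rw [← h, hm])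

end Pool.Agent.helper81
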