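import Pool.Agent.helper81.PMNorm

set_option autoImplicit false
open PowerSeries Finset
open scoped PowerSeries.WithPiTopology

namespace Pool.Agent.helper81

/-! The dissection modulo five of the Euler series and of the partition series modulo two. -/

/-- The part of a power series with exponents congruent to `r` modulo `5`. -/
noncomputable def part (r : ℕ) (F : (ZMod 2)⟦X⟧) : (ZMod 2)⟦X⟧ :=
  PowerSeries.mk fun n => if n % 5 = r then coeff n F else 0

lemma coeff_part (r : ℕ) (F : (ZMod 2)⟦X⟧) (n : ℕ) :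
    coeff n (part r F) = if n % 5 = r then coeff n F else 0 := by
  simp [part]

lemma part_cls {r : ℕ} (hr : r < 5) (F : (ZMod 2)⟦X⟧) : IsCls r (part r F) := by
  intro n hn
  rw [coeff_part, if_neg]
  intro h; apply hn; omega

lemma part_add (r : ℕ) (F G : (ZMod 2)⟦X⟧) : part r (F + G) = part r F + part r G := by
  ext n
  rw [map_add, coeff_part, coeff_part, coeff_part, map_add]
  split_ifs <;> simp

lemma part_self {r : ℕ} {F : (ZMod 2)⟦X⟧} (h : IsCls r F) (hr : r < 5) : part r F = F := by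
  ext n
  rw [coeff_part]
  split_ifs with h1
  · rfl
  · rw [h n (by omega)]

lemma part_other {r s : ℕ} {F : (ZMod 2)⟦X⟧} (h : IsCls s F) (hrs : r ≠ s % 5) : part r F = 0 := by
  ext n
  rw [coeff_part]
  split_ifs with h1
  · rw [h n (by omega), map_zero]
  · rw [map_zero]

lemma IsCls.mul {R : Type*} [CommRing R] {r s : ℕ} {F G : R⟦X⟧} (hF : IsCls r F)
    (hG : IsCls s G) : IsCls (r + s) (F * G) := by
  intro n hn
  rw [coeff_mul]
  refine sum_eq_zero fun p hp => ?_
  rw [HasAntidiagonal.mem_antidiagonal] at hp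
  by_cases h1 : p.1 % 5 = r % 5
  · have h2 : p.2 % 5 ≠ s % 5 := by
      intro h2; apply hn; rw [← hp]; omega
    rw [hG _ h2, mul_zero]
  · rw [hF _ h1, zero_mul]

lemma IsCls.pow {R : Type*} [CommRing R] {r : ℕ} {F : R⟦X⟧} (hF : IsCls r F) (k : ℕ) :
    IsCls (k * r) (F ^ k) := by
  induction k with
  | zero =>
    intro n hn
    rw [pow_zero, coeff_one, if_neg]
    rintro rfl
    simp at hn
  | succ k ih =>
    rw [pow_succ]
    have := ih.mul hF
    rwa [← Nat.succ_mul] at this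

lemma IsCls.congr {R : Type*} [CommRing R] {r s : ℕ} {F : R⟦X⟧} (hF : IsCls r F)
    (h : r % 5 = s % 5) : IsCls s F := by
  intro n hn
  exact hF n (by omega)

lemma IsCls.add {R : Type*} [CommRing R] {r : ℕ} {F G : R⟦X⟧} (hF : IsCls r F)
    (hG : IsCls r G) : IsCls r (F + G) := by
  intro n hn
  rw [map_add, hF n hn, hG n hn, add_zero]

lemma isCls_expand {R : Type*} [CommRing R] (k : ℕ) (hk : 5 * k ≠ 0) (F : R⟦X⟧) :
    IsCls 0 (PowerSeries.expand (5 * k) hk F) := by
  intro n hn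
  apply coeff_expand_of_not_dvd
  intro h
  apply hn
  have : 5 ∣ n := (Dvd.intro k rfl).trans h
  omega

lemma isCls_X {R : Type*} [CommRing R] : IsCls 1 (X : R⟦X⟧) := by
  intro n hn
  rw [coeff_X, if_neg]
  rintro rfl
  exact hn rfl

/-! ### The Euler series -/

lemma coeff_EE (n : ℕ) [Decidable (n ∈ Set.range pentagonal)] :
    coeff n EE = if n ∈ Set.range pentagonal then 1 else 0 := by
  split_ifs with h
  · obtain ⟨k, rfl⟩ := h
    rw [coeff_pentagonalSeries_pentagonal]
    rcases Int.negOnePow_eq_iff k 0 with _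
    rcases Int.even_or_odd k with hk | hk
    · rw [Int.negOnePow_even _ hk]; simp
    · rw [Int.negOnePow_odd _ hk]
      decide
  · exact coeff_pentagonalSeries_eq_zero _ h

lemma pentagonal_mod (k : ℤ) : pentagonal k % 5 = 0 ∨ pentagonal k % 5 = 1 ∨ pentagonal k % 5 = 2 := by
  have h := two_mul_natCast_pentagonal k
  have h5 : k % 5 = 0 ∨ k % 5 = 1 ∨ k % 5 = 2 ∨ k % 5 = 3 ∨ k % 5 = 4 := by omega
  have h6 : (2 * (pentagonal k : ℤ)) % 5 = ((k % 5) * (3 * (k % 5) - 1)) % 5 := by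
    rw [h, Int.mul_emod, Int.sub_emod, Int.mul_emod 3]
    conv_rhs => rw [Int.mul_emod, Int.sub_emod, Int.mul_emod 3]
    simp
  rcases h5 with h5 | h5 | h5 | h5 | h5 <;> rw [h5] at h6 <;> norm_num at h6 <;> omega

lemma pentagonal_one_sub (j : ℤ) : pentagonal (1 - 5 * j) = 1 + 25 * pentagonal j := by
  have h1 := two_mul_natCast_pentagonal (1 - 5 * j)
  have h2 := two_mul_natCast_pentagonal j
  have h3 : (2 : ℤ) * (pentagonal (1 - 5 * j) : ℤ) = 2 * (1 + 25 * (pentagonal j : ℤ)) := by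
    rw [h1]; linear_combination -25 * h2
  have h4 : (pentagonal (1 - 5 * j) : ℤ) = 1 + 25 * (pentagonal j : ℤ) := by linarith
  exact_mod_cast h4

lemma pentagonal_mod_one {k : ℤ} (h : pentagonal k % 5 = 1) : ∃ j : ℤ, k = 1 - 5 * j := by
  have h0 := two_mul_natCast_pentagonal k
  have h5 : k % 5 = 0 ∨ k % 5 = 1 ∨ k % 5 = 2 ∨ k % 5 = 3 ∨ k % 5 = 4 := by omega
  have h6 : (2 * (pentagonal k : ℤ)) % 5 = ((k % 5) * (3 * (k % 5) - 1)) % 5 := by
    rw [h0, Int.mul_emod, Int.sub_emod, Int.mul_emod 3]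
    conv_rhs => rw [Int.mul_emod, Int.sub_emod, Int.mul_emod 3]
    simp
  have h7 : k % 5 = 1 := by
    rcases h5 with h5 | h5 | h5 | h5 | h5 <;> rw [h5] at h6 <;> norm_num at h6 <;> omega
  exact ⟨(1 - k) / 5, by omega⟩

lemma EE_split : EE = part 0 EE + part 1 EE + part 2 EE := by
  classical
  ext n
  rw [map_add, map_add, coeff_part, coeff_part, coeff_part]
  have h5 : n % 5 = 0 ∨ n % 5 = 1 ∨ n % 5 = 2 ∨ (n % 5 ≠ 0 ∧ n % 5 ≠ 1 ∧ n % 5 ≠ 2) := by omega
  rcases h5 with h | h | h | h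
  · simp [h]
  · simp [h]
  · simp [h]
  · obtain ⟨h0, h1, h2⟩ := h
    rw [if_neg h0, if_neg h1, if_neg h2, coeff_EE, if_neg]
    · simp
    · rintro ⟨k, rfl⟩
      have := pentagonal_mod k
      omega

lemma part_one_EE : part 1 EE = X * PowerSeries.expand 25 (by norm_num) EE := by
  classical
  ext n
  rw [coeff_part]
  cases n with
  | zero => simp
  | succ n =>
    rw [coeff_succ_X_mul, coeff_expand]
    by_cases h1 : (n + 1) % 5 = 1
    · rw [if_pos h1, coeff_EE]
      split_ifs with h2 h3 h3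
      · obtain ⟨k, hk⟩ := h2
        obtain ⟨j, rfl⟩ := pentagonal_mod_one (by rw [hk]; exact h1)
        rw [pentagonal_one_sub] at hk
        have : n / 25 = pentagonal j := by omega
        rw [this, coeff_EE, if_pos ⟨j, rfl⟩]
      · exfalso
        obtain ⟨k, hk⟩ := h2
        obtain ⟨j, rfl⟩ := pentagonal_mod_one (by rw [hk]; exact h1)
        rw [pentagonal_one_sub] at hk
        exact h3 ⟨pentagonal j, by omega⟩
      · obtain ⟨m, hm⟩ := h3
        have : n / 25 = m := by omega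
        rw [this, coeff_EE, if_neg]
        rintro ⟨j, hj⟩
        apply h2
        exact ⟨1 - 5 * j, by rw [pentagonal_one_sub, hj]; omega⟩
      · rfl
    · rw [if_neg h1, if_neg]
      intro h
      obtain ⟨m, hm⟩ := h
      apply h1
      omega

lemma constantCoeff_EE : constantCoeff EE = 1 := by
  classical
  rw [← coeff_zero_eq_constantCoeff_apply, coeff_EE, if_pos]
  exact ⟨0, by simp [pentagonal_def]⟩

lemma part_zero_ne_zero : part 0 EE ≠ 0 := by
  intro h
  have := congrArg constantCoeff h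
  rw [← coeff_zero_eq_constantCoeff_apply, coeff_part, if_pos rfl,
    coeff_zero_eq_constantCoeff_apply, constantCoeff_EE] at this
  simp at this

lemma ac_eq : part 0 EE * part 2 EE = part 1 EE ^ 2 := by
  set a := part 0 EE with ha
  set b := part 1 EE with hb
  set c := part 2 EE with hc
  have ca : IsCls 0 a := part_cls (by norm_num) _
  have cb : IsCls 1 b := part_cls (by norm_num) _
  have cc : IsCls 2 c := part_cls (by norm_num) _
  have h1 : part 2 (EE ^ 3) = 0 := by
    ext n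
    rw [coeff_part]
    split_ifs with h
    · rw [coeff_EE_cube h, map_zero]
    · rw [map_zero]
  have h2 : EE ^ 3 = a ^ 3 + a ^ 2 * b + a ^ 2 * c + a * b ^ 2 + b ^ 3 + b ^ 2 * c + a * c ^ 2 +
      b * c ^ 2 + c ^ 3 := by
    have h3 : EE = a + b + c := EE_split
    rw [h3]
    linear_combination (a ^ 2 * b + a ^ 2 * c + a * b ^ 2 + b ^ 2 * c + a * c ^ 2 + b * c ^ 2
      + 3 * a * b * c) * two_eq_zero'
  rw [h2] at h1
  simp only [part_add] at h1
  rw [part_other (r := 2) (s := 0) ((ca.pow 3).congr (by norm_num)) (by norm_num),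
    part_other (r := 2) (s := 1) (((ca.pow 2).mul cb).congr (by norm_num)) (by norm_num),
    part_self (r := 2) (((ca.pow 2).mul cc).congr (by norm_num)) (by norm_num),
    part_self (r := 2) ((ca.mul (cb.pow 2)).congr (by norm_num)) (by norm_num),
    part_other (r := 2) (s := 3) ((cb.pow 3).congr (by norm_num)) (by norm_num),
    part_other (r := 2) (s := 4) (((cb.pow 2).mul cc).congr (by norm_num)) (by norm_num),
    part_other (r := 2) (s := 4) ((ca.mul (cc.pow 2)).congr (by norm_num)) (by norm_num),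
    part_other (r := 2) (s := 0) ((cb.mul (cc.pow 2)).congr (by norm_num)) (by norm_num),
    part_other (r := 2) (s := 1) ((cc.pow 3).congr (by norm_num)) (by norm_num)] at h1
  have h4 : a * (a * c + b ^ 2) = 0 := by linear_combination h1
  rcases mul_eq_zero.mp h4 with h5 | h5
  · exact absurd h5 part_zero_ne_zero
  · linear_combination h5 - b ^ 2 * two_eq_zero'

/-- The Euler series in the variable `X ^ 5`. -/
noncomputable abbrev E5 : (ZMod 2)⟦X⟧ := PowerSeries.expand 5 (by norm_num) EE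
/-- The Euler series in the variable `X ^ 25`. -/
noncomputable abbrev E25 : (ZMod 2)⟦X⟧ := PowerSeries.expand 25 (by norm_num) EE

lemma norm_eq : (part 0 EE ^ 5 + part 1 EE ^ 5 + part 2 EE ^ 5) * E25 = E5 ^ 6 := by
  apply io_injective
  rw [map_mul, map_pow, ← Nm_EE]
  congr 1
  rw [← Nm_classes (part_cls (by norm_num) _) (part_cls (by norm_num) _)
    (part_cls (by norm_num) _) ac_eq, ← EE_split]

lemma expand_five_E5 : PowerSeries.expand 5 (by norm_num) E5 = E25 := by
  rw [← PowerSeries.expand_mul]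

lemma E5_eq : part 0 EE ^ 5 + part 2 EE ^ 5 = E5 := by
  set a := part 0 EE with ha
  set b := part 1 EE with hb
  set c := part 2 EE with hc
  have hE : EE = a + b + c := EE_split
  have hac : a * c = b ^ 2 := ac_eq
  have hN : (a ^ 5 + b ^ 5 + c ^ 5) * E25 = E5 ^ 6 := norm_eq
  have hb' : b = X * E25 := part_one_EE
  have h2 := two_eq_zero'
  -- the series `K` and `W`
  set K : (ZMod 2)⟦X⟧ := EE * E5 + EE ^ 6 + X * E5 ^ 6 with hK
  have hM : EE * (a^4+a^3*b+a*b^3+b^4+b^3*c+b*c^3+c^4) = a ^ 5 + b ^ 5 + c ^ 5 := by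
    rw [hE]
    linear_combination (a^3 + a^2*b + 2*b^3 + b*c^2 + c^3) * hac + (a^4*b + a^3*b^2 + a^2*b^3 +
      a*b^4 + b^5 + b^4*c + b^3*c^2 + b^2*c^3 + b*c^4) * h2
  have h3 : a^5 + c^5 + EE^5 + b * (a^4+a^3*b+a*b^3+b^4+b^3*c+b*c^3+c^4) = 0 := by
    rw [hE]
    linear_combination (5*a^3 + 20*a^2*b + 10*a^2*c + 40*a*b^2 + 30*a*b*c + 10*a*c^2 + 50*b^3 +
      40*b^2*c + 20*b*c^2 + 5*c^3) * hac + (a^5 + 3*a^4*b + 8*a^3*b^2 + 15*a^2*b^3 + 23*a*b^4 +
      26*b^5 + 23*b^4*c + 15*b^3*c^2 + 8*b^2*c^3 + 3*b*c^4 + c^5) * h2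
  have hEW : EE * (E5 + a ^ 5 + c ^ 5) = K := by
    have h4 : X * E5 ^ 6 = b * EE * (a^4+a^3*b+a*b^3+b^4+b^3*c+b*c^3+c^4) := by
      rw [mul_assoc, hM, ← hN, hb']; ring
    rw [hK, h4]
    linear_combination EE * h3 - (EE ^ 6 + b * EE * (a^4+a^3*b+a*b^3+b^4+b^3*c+b*c^3+c^4)) * h2
  have hKW : (E5 + a ^ 5 + c ^ 5) * E25 = PowerSeries.expand 5 (by norm_num) K := by
    rw [hK, map_add, map_add, map_mul, map_mul, map_pow, map_pow, expand_X, expand_five_E5,
      show PowerSeries.expand 5 (by norm_num) EE = E5 from rfl]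
    have h5 : X ^ 5 * E25 ^ 6 = b ^ 5 * E25 := by rw [hb']; ring
    rw [h5, ← hN]
    linear_combination -(b ^ 5 * E25) * h2
  have hKK : E25 * K = EE * PowerSeries.expand 5 (by norm_num) K := by
    rw [← hKW, ← hEW]; ring
  have hK0 : K = 0 := by
    by_contra hne
    have h3 := congrArg order hKK
    have o1 : order EE = 0 := by
      by_contra h
      rw [← ne_eq, order_ne_zero_iff_constCoeff_eq_zero, constantCoeff_EE] at h
      exact one_ne_zero h
    rw [order_mul, order_mul, order_expand, order_expand, o1, smul_zero, zero_add, zero_add] at h3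
    have h4 : order K ≠ ⊤ := (order_finite_iff_ne_zero.mpr hne).ne
    obtain ⟨n, hn⟩ := ENat.ne_top_iff_exists.mp h4
    rw [← hn, nsmul_eq_mul] at h3
    have h5 : n = 5 * n := by exact_mod_cast h3
    have h6 : n = 0 := by omega
    have h7 : order K = 0 := by rw [← hn, h6]; rfl
    have h8 : constantCoeff K = 0 := by
      rw [hK, map_add, map_add, map_mul, map_mul, map_pow, map_pow, constantCoeff_expand,
        constantCoeff_EE, constantCoeff_X]
      decide
    exact (order_ne_zero_iff_constCoeff_eq_zero.mpr h8) h7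
  have h4 : E5 + a ^ 5 + c ^ 5 = 0 := by
    have := hEW
    rw [hK0] at this
    exact (mul_eq_zero.mp this).resolve_left EE_ne_zero
  linear_combination h4 - E5 * h2


/-! ### The partition series -/

lemma deriv_sq (F : (ZMod 2)⟦X⟧) : d⁄dX (ZMod 2) (F ^ 2) = 0 := by
  rw [derivative_pow]
  push_cast
  rw [two_eq_zero', zero_mul, zero_mul]

lemma deriv_sq_mul (F G : (ZMod 2)⟦X⟧) :
    d⁄dX (ZMod 2) (F ^ 2 * G) = F ^ 2 * d⁄dX (ZMod 2) G := by
  rw [Derivation.leibniz, deriv_sq]
  simp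

lemma part_mul_cls {N G : (ZMod 2)⟦X⟧} (hN : IsCls 0 N) (r : ℕ) :
    part r (N * G) = N * part r G := by
  ext n
  rw [coeff_part, coeff_mul, coeff_mul]
  split_ifs with h
  · refine sum_congr rfl fun p hp => ?_
    rw [HasAntidiagonal.mem_antidiagonal] at hp
    by_cases h1 : p.1 % 5 = 0
    · rw [coeff_part, if_pos (by omega)]
    · rw [hN _ (by omega), zero_mul, zero_mul]
  · symm
    refine sum_eq_zero fun p hp => ?_
    rw [HasAntidiagonal.mem_antidiagonal] at hp
    by_cases h1 : p.1 % 5 = 0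
    · rw [coeff_part, if_neg (by omega), mul_zero]
    · rw [hN _ (by omega), zero_mul]

/-- The dissection of the generating series of the partition numbers modulo two into its five
classes modulo five, with the quadratic relations between the five parts. -/
theorem PP_dissect : ∃ p0 p1 p2 p3 p4 : (ZMod 2)⟦X⟧,
    PP = p0 + p1 + p2 + p3 + p4 ∧ IsCls 0 p0 ∧ IsCls 1 p1 ∧ IsCls 2 p2 ∧ IsCls 3 p3 ∧ IsCls 4 p4 ∧
    p1 * p2 = p4 ^ 2 ∧ p0 * p4 = p1 * p3 ∧ p0 * p2 = p3 * p4 ∧
    d⁄dX (ZMod 2) (X * (p0 * p3)) = p4 ^ 2 ∧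
    d⁄dX (ZMod 2) (X * (p1 * p4 + p2 * p3)) = 0 ∧
    coeff 0 p0 = 1 ∧ coeff 4 p4 = 1 ∧ (∀ n < 4, coeff n p4 = 0) := by
  set a := part 0 EE with ha
  set b := part 1 EE with hb
  set c := part 2 EE with hc
  have ca : IsCls 0 a := part_cls (by norm_num) _
  have cb : IsCls 1 b := part_cls (by norm_num) _
  have cc : IsCls 2 c := part_cls (by norm_num) _
  have hE : EE = a + b + c := EE_split
  have hac : a * c = b ^ 2 := ac_eq
  have hN : (a ^ 5 + b ^ 5 + c ^ 5) * E25 = E5 ^ 6 := norm_eq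
  have hb' : b = X * E25 := part_one_EE
  have hD : a ^ 5 + c ^ 5 = E5 := E5_eq
  have h2 := two_eq_zero'
  set N := a ^ 5 + b ^ 5 + c ^ 5 with hNdef
  have cN : IsCls 0 N :=
    (((ca.pow 5).congr (by norm_num)).add ((cb.pow 5).congr (by norm_num))).add
      ((cc.pow 5).congr (by norm_num))
  have kN : constantCoeff N ≠ 0 := by
    intro h
    have := congrArg constantCoeff hN
    rw [map_mul, h, zero_mul, map_pow, constantCoeff_expand, constantCoeff_EE] at this
    simp at this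
  set v := N⁻¹ with hv
  have hNv : N * v = 1 := PowerSeries.mul_inv_cancel N kN
  have kN1 : constantCoeff N = 1 := by
    have := congrArg constantCoeff hN
    rw [map_mul, map_pow, constantCoeff_expand, constantCoeff_expand, constantCoeff_EE] at this
    simpa using this
  have kv1 : constantCoeff v = 1 := by
    have := congrArg constantCoeff hNv
    rw [map_mul, kN1, one_mul, map_one] at this
    exact this
  have cone : IsCls 0 (1 : (ZMod 2)⟦X⟧) := by
    intro n hn
    rw [coeff_one, if_neg]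
    rintro rfl
    exact hn rfl
  have cv : IsCls 0 v := by
    have h1 : N * part 0 v = 1 := by
      rw [← part_mul_cls cN, hNv, part_self cone (by norm_num)]
    have h3 : v = part 0 v := by
      calc v = v * (N * part 0 v) := by rw [h1, mul_one]
        _ = (N * v) * part 0 v := by ring
        _ = part 0 v := by rw [hNv, one_mul]
    rw [h3]
    exact part_cls (by norm_num) _
  have hbE : b * E5 = X * E5 ^ 6 + b ^ 6 := by
    have h3 : E5 * E25 + b ^ 5 * E25 = E5 ^ 6 := by
      rw [← hN, hNdef, ← hD]; ring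
    have h4 : b ^ 6 = X * (b ^ 5 * E25) := by
      rw [hb']; ring
    rw [h4, ← h3]
    linear_combination E5 * hb' - X * (b ^ 5 * E25) * h2
  have hE25 : E25 = v * E5 ^ 6 := by
    calc E25 = (N * v) * E25 := by rw [hNv, one_mul]
      _ = v * (N * E25) := by ring
      _ = v * E5 ^ 6 := by rw [hN]
  have hM : EE * (a^4+a^3*b+a*b^3+b^4+b^3*c+b*c^3+c^4) = N := by
    rw [hE]
    linear_combination (a^3 + a^2*b + 2*b^3 + b*c^2 + c^3) * hac + (a^4*b + a^3*b^2 + a^2*b^3 +
      a*b^4 + b^5 + b^4*c + b^3*c^2 + b^2*c^3 + b*c^4) * h2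
  have hP : PP = (a^4+a^3*b+a*b^3+b^4+b^3*c+b*c^3+c^4) * v := by
    have h3 := PP_mul_EE
    calc PP = PP * (N * v) := by rw [hNv, mul_one]
      _ = (PP * EE) * ((a^4+a^3*b+a*b^3+b^4+b^3*c+b*c^3+c^4) * v) := by rw [← hM]; ring
      _ = _ := by rw [h3, one_mul]
  refine ⟨(a ^ 4 + b ^ 3 * c) * v, a ^ 3 * b * v, b * c ^ 3 * v, (a * b ^ 3 + c ^ 4) * v,
    b ^ 4 * v, ?_, ?_, ?_, ?_, ?_, ?_, ?_, ?_, ?_, ?_, ?_, ?_, ?_, ?_⟩
  · rw [hP]; ring
  · exact ((((ca.pow 4).congr (s := 0) (by norm_num)).add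
      (((cb.pow 3).mul cc).congr (by norm_num))).mul cv).congr (by norm_num)
  · exact (((ca.pow 3).mul cb).mul cv).congr (by norm_num)
  · exact ((cb.mul (cc.pow 3)).mul cv).congr (by norm_num)
  · exact ((((ca.mul (cb.pow 3)).congr (s := 3) (by norm_num)).add
      ((cc.pow 4).congr (by norm_num))).mul cv).congr (by norm_num)
  · exact ((cb.pow 4).mul cv).congr (by norm_num)
  · linear_combination v ^ 2 * b ^ 2 * (a ^ 2 * c ^ 2 + a * c * b ^ 2 + b ^ 4) * hac
  · linear_combination -(v ^ 2 * b * c * (a ^ 2 * c ^ 2 + a * c * b ^ 2 + b ^ 4)) * hac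
  · linear_combination v ^ 2 * a * b * (a ^ 2 * c ^ 2 + a * c * b ^ 2 + b ^ 4) * hac
  · have e : X * ((a ^ 4 + b ^ 3 * c) * v * ((a * b ^ 3 + c ^ 4) * v)) =
        (v * b * X * E5 ^ 3) ^ 2 * 1 + (b ^ 4 * v) ^ 2 * X := by
      linear_combination X * v ^ 2 * (b ^ 3 * hD + ((a ^ 3 * c ^ 3 + a ^ 2 * c ^ 2 * b ^ 2 +
        a * c * b ^ 4 + b ^ 6) + b ^ 6) * hac + b ^ 8 * h2) + X * v ^ 2 * b ^ 2 * hbE
    rw [e, map_add, deriv_sq_mul, deriv_sq_mul, derivative_X, Derivation.map_one_eq_zero,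
      mul_zero, zero_add, mul_one]
  · have e : X * (a ^ 3 * b * v * (b ^ 4 * v) + b * c ^ 3 * v * ((a * b ^ 3 + c ^ 4) * v)) =
        (X * c * v * E5 ^ 3) ^ 2 := by
      have e1 : X * (a ^ 3 * b * v * (b ^ 4 * v) + b * c ^ 3 * v * ((a * b ^ 3 + c ^ 4) * v)) =
          X * b * c ^ 2 * v * (N * v) := by
        linear_combination X * v ^ 2 * (-(a ^ 3 * b * (a * c + b ^ 2)) + b ^ 4 * c ^ 2) * hac
      rw [e1, hNv, mul_one, hb']
      linear_combination X ^ 2 * c ^ 2 * v * hE25
    rw [e, deriv_sq]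
  · have ea : constantCoeff a = 1 := by
      rw [← coeff_zero_eq_constantCoeff_apply, ha, coeff_part, if_pos rfl,
        coeff_zero_eq_constantCoeff_apply, constantCoeff_EE]
    have eb : constantCoeff b = 0 := by rw [hb', map_mul, constantCoeff_X, zero_mul]
    rw [coeff_zero_eq_constantCoeff_apply, map_mul, map_add, map_mul, map_pow, map_pow, ea, eb, kv1]
    norm_num
  · have e : b ^ 4 * v = X ^ 4 * (E25 ^ 4 * v) := by rw [hb']; ring
    rw [e, show (4 : ℕ) = 0 + 4 by norm_num, coeff_X_pow_mul, coeff_zero_eq_constantCoeff_apply,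
      map_mul, map_pow, constantCoeff_expand, constantCoeff_EE, kv1]
    norm_num
  · intro n hn
    have e : b ^ 4 * v = X ^ 4 * (E25 ^ 4 * v) := by rw [hb']; ring
    rw [e]
    exact X_pow_dvd_iff.mp (Dvd.intro _ rfl) n hn

end Pool.Agent.helper81
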