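import Pool.Agent.helper81.PMCore

set_option autoImplicit false
open PowerSeries Finset
open scoped PowerSeries.WithPiTopology

namespace Pool.Agent.helper81

/-! Consequences of the gap theorem for the parity of the partition numbers. -/

lemma exists_multiple (g : Polynomial (ZMod 2)) (hg : g ≠ 0) :
    ∃ H q : Polynomial (ZMod 2), H ≠ 0 ∧ H.natDegree ≤ g.natDegree ∧
      g * q = Polynomial.expand (ZMod 2) 5 H := by
  have hmon : g.Monic := by
    have h1 : g.leadingCoeff ≠ 0 := Polynomial.leadingCoeff_ne_zero.mpr hg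
    have hdec : ∀ c : ZMod 2, c ≠ 0 → c = 1 := by decide
    exact hdec _ h1
  have hfin : Module.Finite (ZMod 2) (AdjoinRoot g) := hmon.finite_adjoinRoot
  have hint : IsIntegral (ZMod 2) ((AdjoinRoot.root g) ^ 5) := IsIntegral.of_finite (ZMod 2) _
  refine ⟨minpoly (ZMod 2) ((AdjoinRoot.root g) ^ 5), ?_⟩
  have h1 : Polynomial.aeval (AdjoinRoot.root g)
      (Polynomial.expand (ZMod 2) 5 (minpoly (ZMod 2) ((AdjoinRoot.root g) ^ 5))) = 0 := by
    rw [Polynomial.expand_aeval]
    exact minpoly.aeval _ _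
  rw [AdjoinRoot.aeval_eq, AdjoinRoot.mk_eq_zero] at h1
  obtain ⟨q, hq⟩ := h1
  refine ⟨q, minpoly.ne_zero hint, ?_, hq.symm⟩
  have h2 := minpoly.natDegree_le (A := ZMod 2) ((AdjoinRoot.root g) ^ 5)
  have h3 : Module.finrank (ZMod 2) (AdjoinRoot g) = g.natDegree :=
    finrank_quotient_span_eq_natDegree
  omega

lemma coe_expand (H : Polynomial (ZMod 2)) :
    ((Polynomial.expand (ZMod 2) 5 H : Polynomial (ZMod 2)) : (ZMod 2)⟦X⟧) =
      PowerSeries.expand 5 (by norm_num) (H : (ZMod 2)⟦X⟧) := by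
  ext n
  rw [Polynomial.coeff_coe, Polynomial.coeff_expand (by norm_num), PowerSeries.coeff_expand,
    Polynomial.coeff_coe]

/-- Rational approximations of the partition series over the field with two elements. -/
theorem approx (f g : Polynomial (ZMod 2)) (hg : g ≠ 0) :
    ∃ n ≤ max (2 * f.natDegree + 8 * g.natDegree) 4,
      coeff n ((g : (ZMod 2)⟦X⟧) * PP) ≠ f.coeff n := by
  by_contra hcon
  push Not at hcon
  set M := max (2 * f.natDegree + 8 * g.natDegree) 4 with hM
  have hc : Cg (M + 1) ((g : (ZMod 2)⟦X⟧) * PP) (f : (ZMod 2)⟦X⟧) := by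
    rw [cg_iff]
    intro n hn
    rw [Polynomial.coeff_coe]
    exact hcon n (by omega)
  by_cases hf : f = 0
  · -- then `g` itself would be divisible by a high power of the variable
    have h1 := hc.mul (Cg.refl (M + 1) EE)
    rw [hf, Polynomial.coe_zero, zero_mul, mul_assoc, PP_mul_EE, mul_one] at h1
    have h2 := h1.coeff_eq (n := g.natDegree) (by omega)
    rw [Polynomial.coeff_coe, map_zero] at h2
    exact hg (Polynomial.leadingCoeff_eq_zero.mp h2)
  obtain ⟨H, q, hH, hHd, hq⟩ := exists_multiple g hg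
  have hexp : Polynomial.expand (ZMod 2) 5 H ≠ 0 := by
    intro h
    exact hH ((Polynomial.expand_eq_zero (by norm_num)).mp h)
  have hq0 : q ≠ 0 := by
    rintro rfl
    rw [mul_zero] at hq
    exact hexp hq.symm
  have hqd : q.natDegree ≤ 4 * g.natDegree := by
    have h1 := congrArg Polynomial.natDegree hq
    rw [Polynomial.natDegree_mul hg hq0, Polynomial.natDegree_expand] at h1
    omega
  have hcB : Cg (M + 1) (PowerSeries.expand 5 (by norm_num) (H : (ZMod 2)⟦X⟧) * PP)
      ((q * f : Polynomial (ZMod 2)) : (ZMod 2)⟦X⟧) := by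
    have h1 := (Cg.refl (M + 1) (q : (ZMod 2)⟦X⟧)).mul hc
    rw [← coe_expand, ← hq, Polynomial.coe_mul, Polynomial.coe_mul]
    rwa [← mul_assoc, mul_comm (q : (ZMod 2)⟦X⟧) (g : (ZMod 2)⟦X⟧)] at h1
  have hA : q * f ≠ 0 := mul_ne_zero hq0 hf
  have hAd : (q * f).natDegree ≤ f.natDegree + 4 * g.natDegree := by
    rw [Polynomial.natDegree_mul hq0 hf]; omega
  set D := max (f.natDegree + 4 * g.natDegree) 2 with hD
  have hMD : M = 2 * D := by omega
  set h := H.natTrailingDegree with hh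
  have h1 : coeff h (H : (ZMod 2)⟦X⟧) ≠ 0 := by
    rw [Polynomial.coeff_coe]
    exact Polynomial.trailingCoeff_nonzero_iff_nonzero.mpr hH
  have h2 : ∀ i < h, coeff i (H : (ZMod 2)⟦X⟧) = 0 := by
    intro i hi
    rw [Polynomial.coeff_coe]
    exact Polynomial.coeff_eq_zero_of_lt_natTrailingDegree hi
  -- the order of the product
  have h3 : 5 * h ≤ D := by
    by_contra h4
    have h5 : (q * f).coeff (q * f).natDegree = 0 := by
      have h6 := hcB.coeff_eq (n := (q * f).natDegree) (by omega)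
      rw [Polynomial.coeff_coe] at h6
      rw [← h6, coeff_mul]
      refine sum_eq_zero fun p hp => ?_
      rw [HasAntidiagonal.mem_antidiagonal] at hp
      rw [PowerSeries.coeff_expand]
      split_ifs with h7
      · rw [h2 _ (by omega), zero_mul]
      · rw [zero_mul]
    exact hA (Polynomial.leadingCoeff_eq_zero.mp h5)
  obtain ⟨n, hn1, hn2, hn3⟩ := core (H : (ZMod 2)⟦X⟧) h h1 h2 D (by omega)
  apply hn3
  rw [hcB.coeff_eq (by omega), Polynomial.coeff_coe]
  exact Polynomial.coeff_eq_zero_of_natDegree_lt (by omega)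

/-! ### Statements about partition numbers -/

lemma coeff_PP (n : ℕ) : coeff n PP = (Fintype.card (Nat.Partition n) : ZMod 2) := by
  simp [PP]

lemma odd_iff (n : ℕ) : coeff n PP ≠ 0 ↔ Odd (Fintype.card (Nat.Partition n)) := by
  rw [coeff_PP, ne_eq, ZMod.natCast_eq_zero_iff_even, Nat.not_even_iff_odd]

lemma const_one : ∀ i < 0, coeff i (1 : (ZMod 2)⟦X⟧) = 0 := by intro i hi; omega

theorem odd_core (x : ℕ) (hx : 2 ≤ x) :
    ∃ n, x < n ∧ n ≤ 2 * x ∧ Odd (Fintype.card (Nat.Partition n)) := by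
  obtain ⟨n, h1, h2, h3⟩ := core 1 0 (by simp) const_one x (by omega)
  refine ⟨n, h1, h2, ?_⟩
  rw [map_one, one_mul] at h3
  exact (odd_iff n).mp h3

lemma EE0 : coeff 0 EE = 1 := by
  classical
  rw [coeff_EE, if_pos ⟨0, by simp [pentagonal_def]⟩]

lemma EE1 : coeff 1 EE = 1 := by
  classical
  rw [coeff_EE, if_pos ⟨1, by simp [pentagonal_def]⟩]

lemma EE2 : coeff 2 EE = 1 := by
  classical
  rw [coeff_EE, if_pos ⟨-1, by simp [pentagonal_def]⟩]

lemma EE3 : coeff 3 EE = 0 := by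
  classical
  rw [coeff_EE, if_neg]
  rintro ⟨k, hk⟩
  have := pentagonal_mod k
  omega

lemma EE4 : coeff 4 EE = 0 := by
  classical
  rw [coeff_EE, if_neg]
  rintro ⟨k, hk⟩
  have := pentagonal_mod k
  omega

lemma EE5 : coeff 5 EE = 1 := by
  classical
  rw [coeff_EE, if_pos ⟨2, by simp [pentagonal_def]⟩]

lemma EE6 : coeff 6 EE = 0 := by
  classical
  rw [coeff_EE, if_neg]
  rintro ⟨k, hk⟩
  obtain ⟨j, rfl⟩ := pentagonal_mod_one (by rw [hk])
  rw [pentagonal_one_sub] at hk
  omega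

lemma EE7 : coeff 7 EE = 1 := by
  classical
  rw [coeff_EE, if_pos ⟨-2, by simp [pentagonal_def]⟩]

lemma PP_rec (n : ℕ) :
    ∑ k ∈ range (n + 1), coeff k PP * coeff (n - k) EE = if n = 0 then 1 else 0 := by
  have h := congrArg (coeff n) PP_mul_EE
  rw [coeff_mul, coeff_one,
    Finset.Nat.sum_antidiagonal_eq_sum_range_succ (fun i j => coeff i PP * coeff j EE)] at h
  exact h

lemma PP_small : coeff 2 PP = 0 ∧ coeff 3 PP = 1 ∧ coeff 4 PP = 1 ∧ coeff 5 PP = 1 ∧
    coeff 7 PP = 1 := by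
  have h0 := PP_rec 0
  have h1 := PP_rec 1
  have h2 := PP_rec 2
  have h3 := PP_rec 3
  have h4 := PP_rec 4
  have h5 := PP_rec 5
  have h6 := PP_rec 6
  have h7 := PP_rec 7
  simp only [sum_range_succ, range_zero, sum_empty, zero_add, Nat.sub_self, Nat.reduceSub,
    Nat.reduceAdd, EE0, EE1, EE2, EE3, EE4, EE5, EE6, EE7, mul_one, mul_zero, add_zero,
    Nat.sub_zero, if_true, OfNat.ofNat_ne_zero, one_ne_zero, if_false] at h0 h1 h2 h3 h4 h5 h6 h7
  generalize coeff 0 PP = x0 at *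
  generalize coeff 1 PP = x1 at *
  generalize coeff 2 PP = x2 at *
  generalize coeff 3 PP = x3 at *
  generalize coeff 4 PP = x4 at *
  generalize coeff 5 PP = x5 at *
  generalize coeff 6 PP = x6 at *
  generalize coeff 7 PP = x7 at *
  revert h0 h1 h2 h3 h4 h5 h6 h7
  revert x0 x1 x2 x3 x4 x5 x6 x7
  decide

/-- The product of the partition series with a series in `X ^ 5`, coefficientwise. -/
lemma coeff_expand_mul_PP (h : ℕ → ZMod 2) (n : ℕ) :
    coeff n (PowerSeries.expand 5 (by norm_num) (PowerSeries.mk h) * PP) =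
      ∑ j ∈ range (n / 5 + 1), h j * (Fintype.card (Nat.Partition (n - 5 * j)) : ZMod 2) := by
  rw [coeff_mul, Finset.Nat.sum_antidiagonal_eq_sum_range_succ
    (fun i j => coeff i (PowerSeries.expand 5 (by norm_num) (PowerSeries.mk h)) * coeff j PP)]
  have hinj : Set.InjOn (fun j => 5 * j) (range (n / 5 + 1) : Set ℕ) := by
    intro x _ y _ hxy
    simp only at hxy
    omega
  have h1 : ∑ k ∈ (range (n / 5 + 1)).image (fun j => 5 * j),
      coeff k (PowerSeries.expand 5 (by norm_num) (PowerSeries.mk h)) * coeff (n - k) PP =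
      ∑ j ∈ range (n / 5 + 1), h j * (Fintype.card (Nat.Partition (n - 5 * j)) : ZMod 2) := by
    rw [sum_image hinj]
    refine sum_congr rfl fun j _ => ?_
    rw [coeff_expand_mul, coeff_mk, coeff_PP]
  rw [← h1]
  symm
  apply sum_subset
  · intro k hk
    rw [mem_image] at hk
    obtain ⟨j, hj, rfl⟩ := hk
    rw [Finset.mem_range] at hj ⊢
    omega
  · intro k hk hk'
    rw [coeff_expand_of_not_dvd, zero_mul]
    rintro ⟨j, rfl⟩
    apply hk'
    rw [mem_image]
    refine ⟨j, ?_, rfl⟩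
    rw [Finset.mem_range] at hk ⊢
    omega

/-- The gap theorem with one exceptional position, for all windows. -/
theorem gap_all (h : ℕ → ZMod 2) (h0 : h 0 = 1) (a b : ℕ) (ha : 1 ≤ a) (hab : a < b) :
    ∃ n, a < n ∧ n ≤ a + b ∧ n ≠ b ∧
      ∑ j ∈ range (n / 5 + 1), h j * (Fintype.card (Nat.Partition (n - 5 * j)) : ZMod 2) ≠ 0 := by
  obtain ⟨k2, k3, k4, k5, k7⟩ := PP_small
  rw [coeff_PP] at k2 k3 k4 k5 k7
  have c3 : ∑ j ∈ range (3 / 5 + 1), h j * (Fintype.card (Nat.Partition (3 - 5 * j)) : ZMod 2)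
      ≠ 0 := by
    simp [h0, k3]
  have c4 : ∑ j ∈ range (4 / 5 + 1), h j * (Fintype.card (Nat.Partition (4 - 5 * j)) : ZMod 2)
      ≠ 0 := by
    simp [h0, k4]
  have c7 : ∑ j ∈ range (7 / 5 + 1), h j * (Fintype.card (Nat.Partition (7 - 5 * j)) : ZMod 2)
      ≠ 0 := by
    simp [sum_range_succ, h0, k7, k2]
  by_cases h4 : 4 ≤ a
  · obtain ⟨n, h1, h2, h3, h4⟩ := core2 (PowerSeries.mk h) 0 (by rw [coeff_mk, h0]; exact one_ne_zero)
      (by intro i hi; omega) a b (by omega) hab
    refine ⟨n, h1, h2, h3, ?_⟩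
    rwa [coeff_expand_mul_PP] at h4
  · by_cases hb3 : b = 3
    · exact ⟨4, by omega, by omega, by omega, c4⟩
    · by_cases ha3 : a = 3
      · by_cases hb4 : b = 4
        · exact ⟨7, by omega, by omega, by omega, c7⟩
        · exact ⟨4, by omega, by omega, by omega, c4⟩
      · exact ⟨3, by omega, by omega, by omega, c3⟩

end Pool.Agent.helper81
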