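import Pool.Agent.helper81.PMExact

set_option autoImplicit false
open PowerSeries Finset
open scoped PowerSeries.WithPiTopology

namespace Pool.Agent.helper81

/-! The gap theorem for the series `H(X ^ 5) * P(X)` over the field with two elements. -/

lemma eq_of_cg {P Q : Polynomial (ZMod 2)} {m : ℕ} (hP : P.natDegree < m) (hQ : Q.natDegree < m)
    (h : Cg m (P : (ZMod 2)⟦X⟧) (Q : (ZMod 2)⟦X⟧)) : P = Q := by
  ext n
  by_cases hn : n < m
  · have := h.coeff_eq hn
    rwa [Polynomial.coeff_coe, Polynomial.coeff_coe] at this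
  · rw [Polynomial.coeff_eq_zero_of_natDegree_lt (by omega),
      Polynomial.coeff_eq_zero_of_natDegree_lt (by omega)]

lemma Cg.deriv {k : ℕ} {a b : (ZMod 2)⟦X⟧} (h : Cg (k + 1) a b) :
    Cg k (d⁄dX (ZMod 2) a) (d⁄dX (ZMod 2) b) := by
  rw [cg_iff] at *
  intro n hn
  rw [coeff_derivative, coeff_derivative, h (n + 1) (by omega)]

lemma Cg.X_mul {k : ℕ} {a b : (ZMod 2)⟦X⟧} (h : Cg k a b) : Cg (k + 1) (X * a) (X * b) := by
  unfold Cg at *
  rw [← mul_sub, pow_succ']
  exact mul_dvd_mul_left _ h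

/-- A congruence between products of polynomials of small degree is an equality. -/
lemma mul_eq_of_cg {m : ℕ} {F1 F2 F3 F4 : (ZMod 2)⟦X⟧} {A1 A2 A3 A4 : Polynomial (ZMod 2)}
    (h1 : Cg m F1 (A1 : (ZMod 2)⟦X⟧)) (h2 : Cg m F2 (A2 : (ZMod 2)⟦X⟧))
    (h3 : Cg m F3 (A3 : (ZMod 2)⟦X⟧)) (h4 : Cg m F4 (A4 : (ZMod 2)⟦X⟧))
    (d12 : A1.natDegree + A2.natDegree < m) (d34 : A3.natDegree + A4.natDegree < m)
    (hQ : F1 * F2 = F3 * F4) : A1 * A2 = A3 * A4 := by
  apply eq_of_cg (m := m)
  · exact lt_of_le_of_lt Polynomial.natDegree_mul_le d12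
  · exact lt_of_le_of_lt Polynomial.natDegree_mul_le d34
  · rw [Polynomial.coe_mul, Polynomial.coe_mul]
    refine (h1.symm.mul h2.symm).trans ?_
    rw [hQ]
    exact h3.mul h4

/-- If the five parts satisfy the quadratic relations and are congruent to polynomials of small
degrees then these polynomials satisfy the relations exactly. -/
lemma exact_of_cg {m : ℕ} {F0 F1 F2 F3 F4 : (ZMod 2)⟦X⟧} {A0 A1 A2 A3 A4 : Polynomial (ZMod 2)}
    (h0 : Cg m F0 (A0 : (ZMod 2)⟦X⟧)) (h1 : Cg m F1 (A1 : (ZMod 2)⟦X⟧))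
    (h2 : Cg m F2 (A2 : (ZMod 2)⟦X⟧)) (h3 : Cg m F3 (A3 : (ZMod 2)⟦X⟧))
    (h4 : Cg m F4 (A4 : (ZMod 2)⟦X⟧))
    (d12 : A1.natDegree + A2.natDegree < m) (d44 : A4.natDegree + A4.natDegree < m)
    (d04 : A0.natDegree + A4.natDegree < m) (d13 : A1.natDegree + A3.natDegree < m)
    (d03 : A0.natDegree + A3.natDegree < m) (d14 : A1.natDegree + A4.natDegree < m)
    (d23 : A2.natDegree + A3.natDegree < m)
    (Q1 : F1 * F2 = F4 ^ 2) (Q2 : F0 * F4 = F1 * F3)
    (D1 : d⁄dX (ZMod 2) (X * (F0 * F3)) = F4 ^ 2)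
    (D2 : d⁄dX (ZMod 2) (X * (F1 * F4 + F2 * F3)) = 0) (hne : A4 ≠ 0) : A1 = A4 := by
  apply exact_rel A0 A1 A2 A3 A4 hne
  · rw [pow_two]
    exact mul_eq_of_cg h1 h2 h4 h4 d12 d44 (by rw [Q1, pow_two])
  · exact mul_eq_of_cg h0 h4 h1 h3 d04 d13 Q2
  · apply eq_of_cg (m := m)
    · exact lt_of_le_of_lt ((natDegree_deriv_X_mul _).trans Polynomial.natDegree_mul_le) d03
    · exact lt_of_le_of_lt Polynomial.natDegree_pow_le (by omega)
    · rw [← derivative_coe, Polynomial.coe_mul, Polynomial.coe_mul, Polynomial.coe_X,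
        Polynomial.coe_pow]
      refine ((h0.symm.mul h3.symm).X_mul.deriv).trans ?_
      rw [D1]
      exact h4.pow 2
  · apply eq_of_cg (m := m)
    · refine lt_of_le_of_lt (natDegree_deriv_X_mul _) ?_
      refine lt_of_le_of_lt (Polynomial.natDegree_add_le _ _) ?_
      refine max_lt ?_ ?_
      · exact lt_of_le_of_lt Polynomial.natDegree_mul_le d14
      · exact lt_of_le_of_lt Polynomial.natDegree_mul_le d23
    · rw [Polynomial.natDegree_zero]; omega
    · rw [← derivative_coe, Polynomial.coe_mul, Polynomial.coe_add, Polynomial.coe_mul,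
        Polynomial.coe_mul, Polynomial.coe_X, Polynomial.coe_zero]
      refine (((h1.symm.mul h4.symm).add (h2.symm.mul h3.symm)).X_mul.deriv).trans ?_
      rw [D2]
      exact Cg.refl _ _

/-- The dissection of `H(X ^ 5) * P(X)`. -/
lemma B_parts (H : (ZMod 2)⟦X⟧) (h : ℕ) (hh : coeff h H ≠ 0) (hmin : ∀ i < h, coeff i H = 0) :
    ∃ b : ℕ → (ZMod 2)⟦X⟧, (∀ r < 5, IsCls r (b r)) ∧
    (∀ n, coeff n (PowerSeries.expand 5 (by norm_num) H * PP) = coeff n (b (n % 5))) ∧
    b 1 * b 2 = b 4 ^ 2 ∧ b 0 * b 4 = b 1 * b 3 ∧ b 0 * b 2 = b 3 * b 4 ∧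
    d⁄dX (ZMod 2) (X * (b 0 * b 3)) = b 4 ^ 2 ∧
    d⁄dX (ZMod 2) (X * (b 1 * b 4 + b 2 * b 3)) = 0 ∧
    coeff (5 * h + 4) (b 4) ≠ 0 ∧ coeff (5 * h) (b 0) ≠ 0 := by
  obtain ⟨p0, p1, p2, p3, p4, hP, c0, c1, c2, c3, c4, Q1, Q2, Q3, D1, D2, k0, k4, k4'⟩ := PP_dissect
  set G : (ZMod 2)⟦X⟧ := PowerSeries.expand 5 (by norm_num) H with hG
  have cG : IsCls 0 G := isCls_expand 1 (by norm_num) H
  have b0 : IsCls 0 (G * p0) := (cG.mul c0).congr (by norm_num)
  have b1 : IsCls 1 (G * p1) := (cG.mul c1).congr (by norm_num)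
  have b2 : IsCls 2 (G * p2) := (cG.mul c2).congr (by norm_num)
  have b3 : IsCls 3 (G * p3) := (cG.mul c3).congr (by norm_num)
  have b4 : IsCls 4 (G * p4) := (cG.mul c4).congr (by norm_num)
  have hGmin : ∀ i < 5 * h, coeff i G = 0 := by
    intro i hi
    rw [hG, coeff_expand]
    split_ifs with h5
    · exact hmin _ (by omega)
    · rfl
  refine ⟨fun r => if r = 0 then G * p0 else if r = 1 then G * p1 else if r = 2 then G * p2
    else if r = 3 then G * p3 else G * p4, ?_, ?_, ?_, ?_, ?_, ?_, ?_, ?_, ?_⟩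
  · intro r hr
    interval_cases r
    · simpa using b0
    · simpa using b1
    · simpa using b2
    · simpa using b3
    · simpa using b4
  · intro n
    have hco : coeff n (G * PP) = coeff n (G * p0) + coeff n (G * p1) + coeff n (G * p2) +
        coeff n (G * p3) + coeff n (G * p4) := by
      rw [hP]; simp only [mul_add, map_add]
    have h5 : n % 5 = 0 ∨ n % 5 = 1 ∨ n % 5 = 2 ∨ n % 5 = 3 ∨ n % 5 = 4 := by omega
    rcases h5 with h5 | h5 | h5 | h5 | h5
    · rw [hco, b1 n (by omega), b2 n (by omega), b3 n (by omega), b4 n (by omega), h5]; simp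
    · rw [hco, b0 n (by omega), b2 n (by omega), b3 n (by omega), b4 n (by omega), h5]; simp
    · rw [hco, b0 n (by omega), b1 n (by omega), b3 n (by omega), b4 n (by omega), h5]; simp
    · rw [hco, b0 n (by omega), b1 n (by omega), b2 n (by omega), b4 n (by omega), h5]; simp
    · rw [hco, b0 n (by omega), b1 n (by omega), b2 n (by omega), b3 n (by omega), h5]; simp
  · norm_num only [if_true, if_false]
    linear_combination G ^ 2 * Q1
  · norm_num only [if_true, if_false]
    linear_combination G ^ 2 * Q2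
  · norm_num only [if_true, if_false]
    linear_combination G ^ 2 * Q3
  · norm_num only [if_true, if_false]
    rw [show X * (G * p0 * (G * p3)) = G ^ 2 * (X * (p0 * p3)) by ring, deriv_sq_mul, D1]
    ring
  · norm_num only [if_true, if_false]
    rw [show X * (G * p1 * (G * p4) + G * p2 * (G * p3))
      = G ^ 2 * (X * (p1 * p4 + p2 * p3)) by ring, deriv_sq_mul, D2, mul_zero]
  · norm_num only [if_true, if_false]
    have e1 : coeff (5 * h + 4) (G * p4) = coeff h H := by
      rw [coeff_mul, sum_eq_single_of_mem (5 * h, 4)]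
      · simp only
        rw [k4, mul_one, hG, coeff_expand_mul]
      · rw [HasAntidiagonal.mem_antidiagonal]
      · rintro ⟨i, j⟩ hij hne
        rw [HasAntidiagonal.mem_antidiagonal] at hij
        simp only at hij ⊢
        rcases lt_trichotomy j 4 with hj | hj | hj
        · rw [k4' j hj, mul_zero]
        · exfalso; apply hne; ext <;> simp only <;> omega
        · rw [hGmin i (by omega), zero_mul]
    rw [e1]; exact hh
  · norm_num only [if_true, if_false]
    have e1 : coeff (5 * h) (G * p0) = coeff h H := by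
      rw [coeff_mul, sum_eq_single_of_mem (5 * h, 0)]
      · simp only
        rw [k0, mul_one, hG, coeff_expand_mul]
      · rw [HasAntidiagonal.mem_antidiagonal]; simp
      · rintro ⟨i, j⟩ hij hne
        rw [HasAntidiagonal.mem_antidiagonal] at hij
        simp only at hij ⊢
        have : j ≠ 0 := by
          rintro rfl
          apply hne; ext <;> simp only <;> omega
        rw [hGmin i (by omega), zero_mul]
    rw [e1]; exact hh

/-- Truncation of a series with a window of vanishing coefficients. -/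
lemma cg_trunc {F : (ZMod 2)⟦X⟧} {D m : ℕ} (hF : ∀ n, D < n → n < m → coeff n F = 0) :
    Cg m F ((trunc (D + 1) F : Polynomial (ZMod 2)) : (ZMod 2)⟦X⟧) := by
  rw [cg_iff]
  intro n hn
  rw [Polynomial.coeff_coe, coeff_trunc]
  split_ifs with h1
  · rfl
  · exact hF n (by omega) (by omega)

theorem core (H : (ZMod 2)⟦X⟧) (h : ℕ) (hh : coeff h H ≠ 0) (hmin : ∀ i < h, coeff i H = 0)
    (D : ℕ) (hD : 5 * h + 4 ≤ 2 * D) :
    ∃ n, D < n ∧ n ≤ 2 * D ∧ coeff n (PowerSeries.expand 5 (by norm_num) H * PP) ≠ 0 := by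
  by_contra hcon
  push Not at hcon
  obtain ⟨b, hb, hco, Q1, Q2, -, D1, D2, k4, -⟩ := B_parts H h hh hmin
  have key : ∀ r < 5, ∀ n, D < n → n < 2 * D + 1 → coeff n (b r) = 0 := by
    intro r hr n h1 h2
    by_cases h3 : n % 5 = r
    · rw [← h3, ← hco n]; exact hcon n h1 (by omega)
    · exact hb r hr n (by omega)
  have e2 : 5 * h + 4 ≤ D := by
    by_contra h5
    have := key 4 (by norm_num) (5 * h + 4) (by omega) (by omega)
    exact k4 this
  have e3 : (trunc (D + 1) (b 4)).coeff (5 * h + 4) ≠ 0 := by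
    rw [coeff_trunc, if_pos (by omega)]
    exact k4
  have e4 : (trunc (D + 1) (b 1)).coeff (5 * h + 4) = 0 := by
    rw [coeff_trunc, if_pos (by omega)]
    exact hb 1 (by norm_num) _ (by omega)
  have t : ∀ r, (trunc (D + 1) (b r)).natDegree < D + 1 := fun r => natDegree_trunc_lt (b r) D
  have t0 := t 0
  have t1 := t 1
  have t2 := t 2
  have t3 := t 3
  have t4 := t 4
  have hA := exact_of_cg (cg_trunc (key 0 (by norm_num))) (cg_trunc (key 1 (by norm_num)))
    (cg_trunc (key 2 (by norm_num))) (cg_trunc (key 3 (by norm_num)))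
    (cg_trunc (key 4 (by norm_num))) (by omega) (by omega) (by omega) (by omega) (by omega)
    (by omega) (by omega) Q1 Q2 D1 D2 (by
      intro h5
      rw [h5] at e3
      exact e3 (by simp))
  rw [hA] at e4
  exact e3 e4

/-- The gap theorem with one exceptional position. -/
theorem core2 (H : (ZMod 2)⟦X⟧) (h : ℕ) (hh : coeff h H ≠ 0) (hmin : ∀ i < h, coeff i H = 0)
    (D s : ℕ) (hD : 5 * h + 4 ≤ D) (hs : D < s) :
    ∃ n, D < n ∧ n ≤ D + s ∧ n ≠ s ∧
      coeff n (PowerSeries.expand 5 (by norm_num) H * PP) ≠ 0 := by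
  by_contra hcon
  push Not at hcon
  obtain ⟨b, hb, hco, Q1, Q2, Q3, D1, D2, k4, k0⟩ := B_parts H h hh hmin
  have key : ∀ r < 5, ∀ n, D < n → n < D + s + 1 → n ≠ s → coeff n (b r) = 0 := by
    intro r hr n h1 h2 h4
    by_cases h3 : n % 5 = r
    · rw [← h3, ← hco n]; exact hcon n h1 (by omega) h4
    · exact hb r hr n (by omega)
  have key' : ∀ r < 5, r ≠ s % 5 → ∀ n, D < n → n < D + s + 1 → coeff n (b r) = 0 := by
    intro r hr hrs n h1 h2
    by_cases h3 : n = s
    · rw [h3]; exact hb r hr s (by omega)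
    · exact key r hr n h1 h2 h3
  -- the polynomial approximations
  set A : ℕ → Polynomial (ZMod 2) := fun r =>
    if r = s % 5 then trunc (s + 1) (b r) else trunc (D + 1) (b r) with hA
  have hdeg1 : ∀ r, (A r).natDegree ≤ s := by
    intro r
    simp only [hA]
    split_ifs
    · have := natDegree_trunc_lt (b r) s; omega
    · have := natDegree_trunc_lt (b r) D; omega
  have hdeg2 : ∀ r, r ≠ s % 5 → (A r).natDegree ≤ D := by
    intro r hr
    simp only [hA, if_neg hr]
    have := natDegree_trunc_lt (b r) D; omega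
  have hcg : ∀ r < 5, Cg (D + s + 1) (b r) ((A r : Polynomial (ZMod 2)) : (ZMod 2)⟦X⟧) := by
    intro r hr
    simp only [hA]
    split_ifs with h1
    · exact cg_trunc fun n h2 h3 => key r hr n (by omega) h3 (by omega)
    · exact cg_trunc (key' r hr h1)
  have hco' : ∀ r < 5, ∀ n ≤ D, (A r).coeff n = coeff n (b r) := by
    intro r hr n hn
    rw [(hcg r hr).coeff_eq (by omega), Polynomial.coeff_coe]
  have e3 : (A 4).coeff (5 * h + 4) ≠ 0 := by
    rw [hco' 4 (by norm_num) _ hD]; exact k4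
  have e4 : (A 1).coeff (5 * h + 4) = 0 := by
    rw [hco' 1 (by norm_num) _ hD]; exact hb 1 (by norm_num) _ (by omega)
  have e0 : (A 0).coeff (5 * h) ≠ 0 := by
    rw [hco' 0 (by norm_num) _ (by omega)]; exact k0
  have c0 := hcg 0 (by norm_num)
  have c1 := hcg 1 (by norm_num)
  have c2 := hcg 2 (by norm_num)
  have c3 := hcg 3 (by norm_num)
  have c4 := hcg 4 (by norm_num)
  have hsum : ∀ i j, i < 5 → j < 5 → i ≠ j → (A i).natDegree + (A j).natDegree < D + s + 1 := by
    intro i j hi hj hij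
    by_cases h1 : i = s % 5
    · have := hdeg2 j (by omega)
      have := hdeg1 i
      omega
    · have := hdeg2 i h1
      have := hdeg1 j
      omega
  by_cases h4 : s % 5 = 4
  · -- the exceptional position lies in the class 4
    have R2 : A 0 * A 4 = A 1 * A 3 :=
      mul_eq_of_cg c0 c4 c1 c3 (hsum 0 4 (by norm_num) (by norm_num) (by norm_num))
        (hsum 1 3 (by norm_num) (by norm_num) (by norm_num)) Q2
    have R3 : A 0 * A 2 = A 3 * A 4 :=
      mul_eq_of_cg c0 c2 c3 c4 (hsum 0 2 (by norm_num) (by norm_num) (by norm_num))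
        (hsum 3 4 (by norm_num) (by norm_num) (by norm_num)) Q3
    have hA0 : A 0 ≠ 0 := by
      intro h5; rw [h5] at e0; exact e0 (by simp)
    have R1 : A 4 ^ 2 = A 1 * A 2 := by
      apply mul_left_cancel₀ hA0
      linear_combination A 4 * R2 - A 1 * R3
    by_cases hz : coeff s (b 4) = 0
    · -- no exception at all
      have hk : ∀ n, D < n → n < D + s + 1 → coeff n (b 4) = 0 := by
        intro n h1 h2
        by_cases h3 : n = s
        · rw [h3]; exact hz
        · exact key 4 (by norm_num) n h1 h2 h3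
      have c4' := cg_trunc hk
      have t4 := natDegree_trunc_lt (b 4) D
      have d0 := hdeg2 0 (by omega)
      have d1 := hdeg2 1 (by omega)
      have d2 := hdeg2 2 (by omega)
      have d3 := hdeg2 3 (by omega)
      have e3' : (trunc (D + 1) (b 4)).coeff (5 * h + 4) ≠ 0 := by
        rw [coeff_trunc, if_pos (by omega)]
        exact k4
      have hE := exact_of_cg c0 c1 c2 c3 c4' (by omega) (by omega) (by omega) (by omega)
        (by omega) (by omega) (by omega) Q1 Q2 D1 D2 (by
          intro h5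
          rw [h5] at e3'
          exact e3' (by simp))
      rw [hE] at e4
      exact e3' e4
    · have h5 : (A 4).coeff s ≠ 0 := by
        have h6 := c4.coeff_eq (show s < D + s + 1 by omega)
        rw [Polynomial.coeff_coe] at h6
        rw [← h6]; exact hz
      have h6 : s ≤ (A 4).natDegree := Polynomial.le_natDegree_of_ne_zero h5
      have h7 := congrArg Polynomial.natDegree R1
      rw [Polynomial.natDegree_pow] at h7
      have h8 : (A 1 * A 2).natDegree ≤ (A 1).natDegree + (A 2).natDegree :=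
        Polynomial.natDegree_mul_le
      have d1 := hdeg2 1 (by omega)
      have d2 := hdeg2 2 (by omega)
      omega
  · have d4 := hdeg2 4 (by omega)
    have hE := exact_of_cg c0 c1 c2 c3 c4 (hsum 1 2 (by norm_num) (by norm_num) (by norm_num))
      (by omega) (hsum 0 4 (by norm_num) (by norm_num) (by norm_num))
      (hsum 1 3 (by norm_num) (by norm_num) (by norm_num))
      (hsum 0 3 (by norm_num) (by norm_num) (by norm_num))
      (hsum 1 4 (by norm_num) (by norm_num) (by norm_num))
      (hsum 2 3 (by norm_num) (by norm_num) (by norm_num)) Q1 Q2 D1 D2 (by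
        intro h5
        rw [h5] at e3
        exact e3 (by simp))
    rw [hE] at e4
    exact e3 e4

end Pool.Agent.helper81
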