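import Pool.Agent.helper81.PMDissect

set_option autoImplicit false
open Polynomial

namespace Pool.Agent.helper81

/-! No nonzero polynomials satisfy the quadratic relations of the partition series exactly. -/

lemma ptwo : (2 : (ZMod 2)[X]) = 0 := by
  have h : (2 : ZMod 2) = 0 := by decide
  have h2 : (2 : (ZMod 2)[X]) = C (2 : ZMod 2) := (map_ofNat (C (R := ZMod 2)) 2).symm
  rw [h2, h, map_zero]

lemma pderiv_sq_mul (F G : (ZMod 2)[X]) :
    derivative (F ^ 2 * G) = F ^ 2 * derivative G := by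
  rw [derivative_mul, derivative_pow]
  have : (C ((2 : ℕ) : ZMod 2)) = (0 : (ZMod 2)[X]) := by
    have : ((2 : ℕ) : ZMod 2) = 0 := by decide
    rw [this, map_zero]
  rw [this]
  ring

lemma natDegree_deriv_X_mul (F : (ZMod 2)[X]) : (derivative (X * F)).natDegree ≤ F.natDegree := by
  have h1 := natDegree_derivative_le (X * F)
  have h2 : (X * F).natDegree ≤ F.natDegree + 1 := by
    refine natDegree_mul_le.trans ?_
    rw [natDegree_X]; omega
  omega

theorem exact_rel (A0 A1 A2 A3 A4 : (ZMod 2)[X]) (h4 : A4 ≠ 0) (Q1 : A1 * A2 = A4 ^ 2)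
    (Q2 : A0 * A4 = A1 * A3) (D1 : derivative (X * (A0 * A3)) = A4 ^ 2)
    (D2 : derivative (X * (A1 * A4 + A2 * A3)) = 0) : A1 = A4 := by
  have h1 : A1 ≠ 0 := by
    rintro rfl
    rw [zero_mul] at Q1
    exact h4 (pow_eq_zero_iff (two_ne_zero) |>.mp Q1.symm)
  obtain ⟨g, u, v, hcop, hA1, hA4⟩ : ∃ g u v : (ZMod 2)[X], IsCoprime u v ∧ A1 = g * u ∧
      A4 = g * v := by
    obtain ⟨u, hu⟩ := EuclideanDomain.gcd_dvd_left A1 A4
    obtain ⟨v, hv⟩ := EuclideanDomain.gcd_dvd_right A1 A4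
    have hg0 : EuclideanDomain.gcd A1 A4 ≠ 0 := by
      intro h
      exact h1 (EuclideanDomain.gcd_eq_zero_iff.mp h).1
    refine ⟨EuclideanDomain.gcd A1 A4, u, v, ?_, hu, hv⟩
    refine ⟨EuclideanDomain.gcdA A1 A4, EuclideanDomain.gcdB A1 A4, ?_⟩
    apply mul_left_cancel₀ hg0
    have h := EuclideanDomain.gcd_eq_gcd_ab A1 A4
    have h' : EuclideanDomain.gcd A1 A4 = (EuclideanDomain.gcd A1 A4 * u) *
        EuclideanDomain.gcdA A1 A4 + (EuclideanDomain.gcd A1 A4 * v) *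
        EuclideanDomain.gcdB A1 A4 := by
      rw [← hu, ← hv]; exact h
    generalize EuclideanDomain.gcd A1 A4 = g at *
    generalize EuclideanDomain.gcdA A1 A4 = x at *
    generalize EuclideanDomain.gcdB A1 A4 = y at *
    linear_combination -h'
  have hg : g ≠ 0 := by rintro rfl; apply h1; rw [hA1, zero_mul]
  have hu : u ≠ 0 := by rintro rfl; apply h1; rw [hA1, mul_zero]
  have hv : v ≠ 0 := by rintro rfl; apply h4; rw [hA4, mul_zero]
  have e1 : u * A2 = g * v ^ 2 := by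
    apply mul_left_cancel₀ hg
    rw [← mul_assoc, ← hA1, Q1, hA4]; ring
  obtain ⟨w, hw⟩ : u ∣ g := by
    have : u ∣ g * v ^ 2 := ⟨A2, e1.symm⟩
    exact (hcop.pow_right).dvd_of_dvd_mul_right this
  have hw0 : w ≠ 0 := by rintro rfl; apply hg; rw [hw, mul_zero]
  have hA2 : A2 = w * v ^ 2 := by
    apply mul_left_cancel₀ hu
    rw [e1, hw]; ring
  have e2 : A0 * v = u * A3 := by
    apply mul_left_cancel₀ hg
    calc g * (A0 * v) = A0 * (g * v) := by ring
      _ = A1 * A3 := by rw [← hA4, Q2]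
      _ = g * (u * A3) := by rw [hA1]; ring
  obtain ⟨s, hs⟩ : u ∣ A0 := by
    have : u ∣ A0 * v := ⟨A3, e2⟩
    exact hcop.dvd_of_dvd_mul_right this
  have hA3 : A3 = v * s := by
    apply mul_left_cancel₀ hu
    rw [← e2, hs]; ring
  have e3 : s ^ 2 * derivative (X * (u * v)) = (u * w * v) ^ 2 := by
    rw [← pderiv_sq_mul]
    have : s ^ 2 * (X * (u * v)) = X * (A0 * A3) := by rw [hs, hA3]; ring
    rw [this, D1, hA4, hw]
  obtain ⟨l, hl⟩ : s ∣ u * w * v := by
    have : s ^ 2 ∣ (u * w * v) ^ 2 := ⟨_, e3.symm⟩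
    exact (UniqueFactorizationMonoid.pow_dvd_pow_iff_dvd two_ne_zero).mp this
  have huwv : u * w * v ≠ 0 := mul_ne_zero (mul_ne_zero hu hw0) hv
  have hs0 : s ≠ 0 := by rintro rfl; rw [zero_mul] at hl; exact huwv hl
  have hl0 : l ≠ 0 := by rintro rfl; rw [mul_zero] at hl; exact huwv hl
  have e4 : derivative (X * (u * v)) = l ^ 2 := by
    apply mul_left_cancel₀ (pow_ne_zero 2 hs0)
    rw [e3, hl]; ring
  have e5 : u ^ 2 * l ^ 4 = v ^ 4 * derivative (X * (u * l)) := by
    have h5 : (w * u) ^ 2 * l ^ 2 + v ^ 2 * derivative (X * (w * v * s)) = 0 := by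
      rw [← e4, ← pderiv_sq_mul, ← pderiv_sq_mul, ← derivative_add, ← D2]
      congr 1
      rw [hA1, hA4, hA2, hA3, hw]; ring
    have h6 : l ^ 2 * derivative (X * (w * v * s)) = (w * v) ^ 2 * derivative (X * (u * l)) := by
      rw [← pderiv_sq_mul, ← pderiv_sq_mul]
      congr 1
      calc l ^ 2 * (X * (w * v * s)) = X * l * (w * v) * (s * l) := by ring
        _ = (w * v) ^ 2 * (X * (u * l)) := by rw [← hl]; ring
    apply mul_left_cancel₀ (pow_ne_zero 2 hw0)
    linear_combination l ^ 2 * h5 - v ^ 2 * h6 - v ^ 4 * w ^ 2 * derivative (X * (u * l)) * ptwo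
  obtain ⟨k, hk⟩ : v ∣ l := by
    have h5 : v ^ 4 ∣ u ^ 2 * l ^ 4 := ⟨_, e5⟩
    have h6 : v ^ 4 ∣ l ^ 4 := by
      have hc : IsCoprime (v ^ 4) (u ^ 2) := (hcop.symm).pow
      exact hc.dvd_of_dvd_mul_left h5
    exact (UniqueFactorizationMonoid.pow_dvd_pow_iff_dvd (by norm_num)).mp h6
  have hk0 : k ≠ 0 := by rintro rfl; apply hl0; rw [hk, mul_zero]
  have e6 : u ^ 2 * k ^ 4 = derivative (X * (u * v * k)) := by
    apply mul_left_cancel₀ (pow_ne_zero 4 hv)
    calc v ^ 4 * (u ^ 2 * k ^ 4) = u ^ 2 * l ^ 4 := by rw [hk]; ring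
      _ = v ^ 4 * derivative (X * (u * v * k)) := by
        rw [e5, hk]; congr 3; ring
  rw [hk] at e4
  have d1 : 2 * (v.natDegree + k.natDegree) ≤ u.natDegree + v.natDegree := by
    have := natDegree_deriv_X_mul (u * v)
    rw [e4, natDegree_pow, natDegree_mul hv hk0, natDegree_mul hu hv] at this
    exact this
  have d2 : 2 * u.natDegree + 4 * k.natDegree ≤ u.natDegree + v.natDegree + k.natDegree := by
    have := natDegree_deriv_X_mul (u * v * k)
    rw [← e6, natDegree_mul (pow_ne_zero 2 hu) (pow_ne_zero 4 hk0), natDegree_pow, natDegree_pow,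
      natDegree_mul (mul_ne_zero hu hv) hk0, natDegree_mul hu hv] at this
    exact this
  have hkd : k.natDegree = 0 := by omega
  have hk1 : k = 1 := by
    obtain ⟨c, hc⟩ := natDegree_eq_zero.mp hkd
    have hdec : ∀ c : ZMod 2, c = 0 ∨ c = 1 := by decide
    have : c = 0 ∨ c = 1 := hdec c
    rcases this with h | h
    · exfalso; apply hk0; rw [← hc, h, map_zero]
    · rw [← hc, h, map_one]
  rw [hk1, mul_one] at e4 e6
  rw [e4] at e6
  have huv : u = v := by
    have h5 : (u - v) ^ 2 = 0 := by linear_combination e6 - (u * v - v ^ 2) * ptwo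
    exact sub_eq_zero.mp (pow_eq_zero_iff two_ne_zero |>.mp h5)
  rw [hA1, hA4, huv]

end Pool.Agent.helper81
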