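import Pool.Agent.helper81.PMGauss

set_option autoImplicit false
open PowerSeries Finset
open scoped PowerSeries.WithPiTopology

namespace Pool.Agent.helper81

/-! The product of the conjugates of the Euler series under multiplication of the variable by
the fifth roots of unity. -/

lemma five_prod {R : Type*} [CommRing R] (w x : R) (hw : 1 + w + w ^ 2 + w ^ 3 + w ^ 4 = 0) :
    ∏ i ∈ range 5, (1 - w ^ i * x) = 1 - x ^ 5 := by
  simp only [prod_range_succ, prod_range_zero]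
  linear_combination (-x + x ^ 2 * w * (1 + w ^ 2) - x ^ 3 * w ^ 3 * (1 + w ^ 2) + x ^ 4 * w ^ 6
    - x ^ 5 * (w - 1) * (w ^ 5 + 1)) * hw

/-- The polynomial whose root is a primitive fifth root of unity. -/
noncomputable def Phi5 : Polynomial (ZMod 2) :=
  1 + Polynomial.X + Polynomial.X ^ 2 + Polynomial.X ^ 3 + Polynomial.X ^ 4

/-- A ring of characteristic two with a primitive fifth root of unity. -/
abbrev AA : Type := AdjoinRoot Phi5

/-- The fifth root of unity. -/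
noncomputable def zz : AA := AdjoinRoot.root Phi5

lemma zz_rel : 1 + zz + zz ^ 2 + zz ^ 3 + zz ^ 4 = 0 := by
  have h : AdjoinRoot.mk Phi5 Phi5 = 0 := AdjoinRoot.mk_self
  have h2 : AdjoinRoot.mk Phi5 (1 + Polynomial.X + Polynomial.X ^ 2 + Polynomial.X ^ 3
      + Polynomial.X ^ 4) = 0 := h
  simp only [map_add, map_pow, map_one, AdjoinRoot.mk_X] at h2
  exact h2

lemma zz_pow_five : zz ^ 5 = 1 := by
  linear_combination (zz - 1) * zz_rel

instance : Nontrivial AA := by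
  apply AdjoinRoot.nontrivial
  have : Phi5.degree = 4 := by unfold Phi5; compute_degree!
  rw [this]; norm_num

/-- The coefficient map. -/
noncomputable def io : (ZMod 2)⟦X⟧ →+* AA⟦X⟧ := PowerSeries.map (algebraMap (ZMod 2) AA)

lemma io_injective : Function.Injective io :=
  PowerSeries.map_injective _ (algebraMap (ZMod 2) AA).injective

lemma zz_pow_rel {k : ℕ} (hk : k % 5 ≠ 0) :
    1 + zz ^ k + (zz ^ k) ^ 2 + (zz ^ k) ^ 3 + (zz ^ k) ^ 4 = 0 := by
  have h5 : ∀ m : ℕ, zz ^ m = zz ^ (m % 5) := by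
    intro m
    conv_lhs => rw [← Nat.div_add_mod m 5, pow_add, pow_mul, zz_pow_five, one_pow, one_mul]
  rw [h5 k]
  have h4 : k % 5 = 1 ∨ k % 5 = 2 ∨ k % 5 = 3 ∨ k % 5 = 4 := by omega
  rcases h4 with h | h | h | h <;> rw [h]
  · linear_combination zz_rel
  · linear_combination (1 - zz + zz ^ 2 - zz ^ 3 + zz ^ 4) * zz_rel
  · linear_combination (1 - zz + zz ^ 3 - zz ^ 4 + zz ^ 5 - zz ^ 7 + zz ^ 8) * zz_rel
  · linear_combination (1 - zz + zz ^ 2 - zz ^ 3 + zz ^ 4) *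
      (1 - zz ^ 2 + zz ^ 4 - zz ^ 6 + zz ^ 8) * zz_rel

lemma zz_pow_mod (m : ℕ) : zz ^ m = zz ^ (m % 5) := by
  conv_lhs => rw [← Nat.div_add_mod m 5, pow_add, pow_mul, zz_pow_five, one_pow, one_mul]

/-- The norm of a power series: the product of its five conjugates. -/
noncomputable def Nm (F : AA⟦X⟧) : AA⟦X⟧ := ∏ i ∈ range 5, rescale (zz ^ i) F

lemma Nm_mul (F G : AA⟦X⟧) : Nm (F * G) = Nm F * Nm G := by
  unfold Nm
  rw [← prod_mul_distrib]
  exact prod_congr rfl fun i _ => map_mul _ _ _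

lemma Nm_one : Nm 1 = 1 := by simp [Nm]

lemma rescale_one_sub (i k : ℕ) :
    rescale (zz ^ i) (1 - (X : AA⟦X⟧) ^ k) = 1 - (C (zz ^ k)) ^ i * X ^ k := by
  rw [map_sub, map_one, map_pow, rescale_X, mul_pow, ← map_pow, ← map_pow, ← pow_mul, ← pow_mul,
    mul_comm i k]

lemma Nm_one_sub {k : ℕ} (hk : k % 5 ≠ 0) : Nm (1 - (X : AA⟦X⟧) ^ k) = 1 - X ^ (5 * k) := by
  unfold Nm
  simp only [rescale_one_sub]
  rw [five_prod (C (zz ^ k)) ((X : AA⟦X⟧) ^ k), ← pow_mul, mul_comm k 5]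
  have h := congrArg (C (R := AA)) (zz_pow_rel hk)
  simpa only [map_add, map_one, map_pow, map_zero] using h

lemma Nm_one_sub_five (k : ℕ) : Nm (1 - (X : AA⟦X⟧) ^ (5 * k)) = (1 - X ^ (5 * k)) ^ 5 := by
  unfold Nm
  simp only [rescale_one_sub]
  have h : zz ^ (5 * k) = 1 := by rw [pow_mul, zz_pow_five, one_pow]
  simp only [h, map_one, one_pow, one_mul, prod_const, card_range]

lemma Nm_efin (N : ℕ) :
    Nm (Efin AA (5 * N)) * ∏ m ∈ range N, (1 - (X : AA⟦X⟧) ^ (25 * (m + 1))) =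
    (∏ n ∈ range (5 * N), (1 - (X : AA⟦X⟧) ^ (5 * (n + 1)))) *
      (∏ m ∈ range N, (1 - (X : AA⟦X⟧) ^ (5 * (m + 1)))) ^ 5 := by
  induction N with
  | zero => simp [Efin, Nm_one]
  | succ N ih =>
    have e : Efin AA (5 * (N + 1)) = Efin AA (5 * N) * (1 - X ^ (5 * N + 1)) *
        (1 - X ^ (5 * N + 2)) * (1 - X ^ (5 * N + 3)) * (1 - X ^ (5 * N + 4)) *
        (1 - X ^ (5 * (N + 1))) := by
      unfold Efin
      rw [show 5 * (N + 1) = 5 * N + 1 + 1 + 1 + 1 + 1 by ring, prod_range_succ, prod_range_succ,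
        prod_range_succ, prod_range_succ, prod_range_succ]
    have e2 : ∏ n ∈ range (5 * (N + 1)), (1 - (X : AA⟦X⟧) ^ (5 * (n + 1))) =
        (∏ n ∈ range (5 * N), (1 - (X : AA⟦X⟧) ^ (5 * (n + 1)))) *
        (1 - X ^ (5 * (5 * N + 1))) * (1 - X ^ (5 * (5 * N + 2))) * (1 - X ^ (5 * (5 * N + 3))) *
        (1 - X ^ (5 * (5 * N + 4))) * (1 - X ^ (25 * (N + 1))) := by
      rw [show 5 * (N + 1) = 5 * N + 1 + 1 + 1 + 1 + 1 by ring, prod_range_succ, prod_range_succ,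
        prod_range_succ, prod_range_succ, prod_range_succ]
      congr 3
      ring
    rw [e, e2, prod_range_succ, prod_range_succ, Nm_mul, Nm_mul, Nm_mul, Nm_mul, Nm_mul,
      Nm_one_sub (show (5 * N + 1) % 5 ≠ 0 by omega), Nm_one_sub (show (5 * N + 2) % 5 ≠ 0 by omega),
      Nm_one_sub (show (5 * N + 3) % 5 ≠ 0 by omega), Nm_one_sub (show (5 * N + 4) % 5 ≠ 0 by omega),
      Nm_one_sub_five, mul_pow]
    linear_combination (1 - (X : AA⟦X⟧) ^ (5 * (5 * N + 1))) * (1 - X ^ (5 * (5 * N + 2))) *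
      (1 - X ^ (5 * (5 * N + 3))) * (1 - X ^ (5 * (5 * N + 4))) * (1 - X ^ (5 * (N + 1))) ^ 5 *
      (1 - X ^ (25 * (N + 1))) * ih

lemma Cg.rescale' {k : ℕ} {a b : AA⟦X⟧} (h : Cg k a b) (c : AA) :
    Cg k (rescale c a) (rescale c b) := by
  rw [cg_iff] at *
  intro n hn
  rw [coeff_rescale, coeff_rescale, h n hn]

lemma Cg.Nm' {k : ℕ} {a b : AA⟦X⟧} (h : Cg k a b) : Cg k (Nm a) (Nm b) :=
  Cg.prod _ fun _ _ => h.rescale' _

lemma io_efin (N : ℕ) : io (Efin (ZMod 2) N) = Efin AA N := by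
  unfold Efin io
  rw [map_prod]
  refine prod_congr rfl fun i _ => ?_
  rw [map_sub, map_one, map_pow, PowerSeries.map_X]

lemma expand_efin {R : Type*} [CommRing R] (p : ℕ) (hp : p ≠ 0) (N : ℕ) :
    PowerSeries.expand p hp (Efin R N) = ∏ m ∈ range N, (1 - (X : R⟦X⟧) ^ (p * (m + 1))) := by
  unfold Efin
  rw [map_prod]
  refine prod_congr rfl fun i _ => ?_
  rw [map_sub, map_one, map_pow, expand_X, ← pow_mul]

/-- The norm of the Euler series. -/
lemma Nm_EE : Nm (io EE) * io (PowerSeries.expand 25 (by norm_num) EE) =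
    io (PowerSeries.expand 5 (by norm_num) EE) ^ 6 := by
  refine eq_of_forall_cg fun k => ?_
  have h1 : Cg (5 * k + 1) (Nm (io EE)) (Nm (Efin AA (5 * k))) := by
    rw [← io_efin]
    exact ((euler_cg (ZMod 2) (5 * k)).map _).Nm'
  have h2 : Cg (25 * (k + 1)) (io (PowerSeries.expand 25 (by norm_num) EE))
      (∏ m ∈ range k, (1 - (X : AA⟦X⟧) ^ (25 * (m + 1)))) := by
    rw [← expand_efin 25 (by norm_num), ← io_efin]
    unfold io
    rw [← map_expand]
    exact (((euler_cg (ZMod 2) k).expand 25 (by norm_num)).map _)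
  have h3 : Cg (5 * (5 * k + 1)) (io (PowerSeries.expand 5 (by norm_num) EE))
      (∏ n ∈ range (5 * k), (1 - (X : AA⟦X⟧) ^ (5 * (n + 1)))) := by
    rw [← expand_efin 5 (by norm_num), ← io_efin]
    unfold io
    rw [← map_expand]
    exact (((euler_cg (ZMod 2) (5 * k)).expand 5 (by norm_num)).map _)
  have h4 : Cg (5 * (k + 1)) (io (PowerSeries.expand 5 (by norm_num) EE))
      (∏ m ∈ range k, (1 - (X : AA⟦X⟧) ^ (5 * (m + 1)))) := by
    rw [← expand_efin 5 (by norm_num), ← io_efin]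
    unfold io
    rw [← map_expand]
    exact (((euler_cg (ZMod 2) k).expand 5 (by norm_num)).map _)
  have h5 := (h1.mono (show k ≤ 5 * k + 1 by omega)).mul (h2.mono (show k ≤ 25 * (k + 1) by omega))
  have h6 := (h3.mono (show k ≤ 5 * (5 * k + 1) by omega)).mul
    ((h4.mono (show k ≤ 5 * (k + 1) by omega)).pow 5)
  rw [Nm_efin] at h5
  have h7 := h5.trans h6.symm
  rwa [← pow_succ'] at h7

/-! ### Classes of exponents modulo five -/

/-- The power series is supported on exponents congruent to `r` modulo `5`. -/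
def IsCls {R : Type*} [CommRing R] (r : ℕ) (F : R⟦X⟧) : Prop :=
  ∀ n, n % 5 ≠ r % 5 → coeff n F = 0

lemma rescale_cls {r : ℕ} {F : AA⟦X⟧} (h : IsCls r F) (i : ℕ) :
    rescale (zz ^ i) F = C (zz ^ r) ^ i * F := by
  ext n
  rw [coeff_rescale, ← map_pow, coeff_C_mul]
  by_cases hn : n % 5 = r % 5
  · congr 1
    rw [← pow_mul, ← pow_mul, zz_pow_mod, zz_pow_mod (r * i), mul_comm r i, Nat.mul_mod,
      Nat.mul_mod i r, hn]
  · rw [h n hn, mul_zero, mul_zero]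

lemma IsCls.io' {r : ℕ} {F : (ZMod 2)⟦X⟧} (h : IsCls r F) : IsCls r (io F) := by
  intro n hn
  unfold io
  rw [PowerSeries.coeff_map, h n hn, map_zero]

lemma pair_form {R : Type*} [CommRing R] (z a b c : R) (h2 : (2 : R) = 0)
    (hz : 1 + z + z ^ 2 + z ^ 3 + z ^ 4 = 0) (hac : a * c = b ^ 2) :
    (a + z * b + z ^ 2 * c) * (a + z ^ 4 * b + z ^ 8 * c) =
      (a ^ 2 + c ^ 2) + (z + z ^ 4) * (a * b + b * c + b ^ 2) := by
  linear_combination (z ^ 8 + z ^ 2) * hac + (b ^ 2 * (1 + (z - 1) * (z ^ 3 + 1)) +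
    b * c * (z - 1) * (z ^ 4 + z) + c ^ 2 * (z - 1) * (z ^ 5 + 1) +
    a * b * 0) * hz - b ^ 2 * (z + z ^ 4) * h2

lemma last_form {R : Type*} [CommRing R] (a b c : R) (h2 : (2 : R) = 0)
    (hac : a * c = b ^ 2) :
    (a + b + c) * ((a ^ 2 + c ^ 2) ^ 2 + (a ^ 2 + c ^ 2) * (a * b + b * c + b ^ 2) +
      (a * b + b * c + b ^ 2) ^ 2) = a ^ 5 + b ^ 5 + c ^ 5 := by
  linear_combination (a^3 + 2*a^2*b + 2*a^2*c + 7*a*b^2 + 4*a*b*c + 2*a*c^2 + 10*b^3 + 7*b^2*c +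
    2*b*c^2 + c^3) * hac + (a^4*b + 2*a^3*b^2 + 3*a^2*b^3 + 5*a*b^4 + 5*b^5 + 5*b^4*c + 3*b^3*c^2
    + 2*b^2*c^3 + b*c^4) * h2

lemma five_form {R : Type*} [CommRing R] (z a b c : R) (h2 : (2 : R) = 0)
    (hz : 1 + z + z ^ 2 + z ^ 3 + z ^ 4 = 0) (hac : a * c = b ^ 2) :
    ∏ i ∈ range 5, (a + z ^ i * b + (z ^ 2) ^ i * c) = a ^ 5 + b ^ 5 + c ^ 5 := by
  have h5 : z ^ 5 = 1 := by linear_combination (z - 1) * hz
  have hz2 : 1 + z ^ 2 + (z ^ 2) ^ 2 + (z ^ 2) ^ 3 + (z ^ 2) ^ 4 = 0 := by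
    linear_combination (1 - z + z ^ 2 - z ^ 3 + z ^ 4) * hz
  have g1 := pair_form z a b c h2 hz hac
  have g2 := pair_form (z ^ 2) a b c h2 hz2 hac
  have e8 : z ^ 8 = z ^ 3 := by rw [show z ^ 8 = z ^ 5 * z ^ 3 by ring, h5, one_mul]
  have e16 : (z ^ 2) ^ 8 = z ^ 6 := by
    rw [show (z ^ 2) ^ 8 = z ^ 5 * z ^ 5 * z ^ 6 by ring, h5, one_mul, one_mul]
  have e8' : (z ^ 2) ^ 4 = z ^ 3 := by rw [← pow_mul]; exact e8
  rw [e16, e8'] at g2
  have hs : (z + z ^ 4) + (z ^ 2 + z ^ 3) = 1 := by linear_combination hz - h2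
  have hp : (z + z ^ 4) * (z ^ 2 + z ^ 3) = 1 := by
    linear_combination (z - 1) * (z + z ^ 2) * hz + hz - h2
  simp only [prod_range_succ, prod_range_zero, pow_zero, one_mul, pow_one]
  have key : (a + b + c) * (a + z * b + z ^ 2 * c) * (a + z ^ 2 * b + (z ^ 2) ^ 2 * c) *
      (a + z ^ 3 * b + (z ^ 2) ^ 3 * c) * (a + z ^ 4 * b + (z ^ 2) ^ 4 * c) =
      (a + b + c) * (((a + z * b + z ^ 2 * c) * (a + z ^ 4 * b + z ^ 8 * c)) *
        ((a + z ^ 2 * b + (z ^ 2) ^ 2 * c) * (a + z ^ 3 * b + z ^ 6 * c))) := by ring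
  rw [key, g1, g2]
  have key2 : ((a ^ 2 + c ^ 2) + (z + z ^ 4) * (a * b + b * c + b ^ 2)) *
      ((a ^ 2 + c ^ 2) + (z ^ 2 + z ^ 3) * (a * b + b * c + b ^ 2)) =
      (a ^ 2 + c ^ 2) ^ 2 + (a ^ 2 + c ^ 2) * (a * b + b * c + b ^ 2) +
      (a * b + b * c + b ^ 2) ^ 2 := by
    linear_combination (a ^ 2 + c ^ 2) * (a * b + b * c + b ^ 2) * hs +
      (a * b + b * c + b ^ 2) ^ 2 * hp
  rw [key2]
  exact last_form a b c h2 hac

lemma Nm_classes {a b c : (ZMod 2)⟦X⟧} (ha : IsCls 0 a) (hb : IsCls 1 b) (hc : IsCls 2 c)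
    (hac : a * c = b ^ 2) : Nm (io (a + b + c)) = io (a ^ 5 + b ^ 5 + c ^ 5) := by
  unfold Nm
  have h : ∀ i, rescale (zz ^ i) (io (a + b + c)) =
      io a + (C zz) ^ i * io b + ((C zz) ^ 2) ^ i * io c := by
    intro i
    rw [map_add, map_add, map_add, map_add, rescale_cls ha.io', rescale_cls hb.io',
      rescale_cls hc.io']
    simp only [pow_zero, map_one, one_pow, one_mul, pow_one, map_pow]
  simp only [h]
  rw [five_form (C zz) (io a) (io b) (io c)]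
  · simp only [map_add, map_pow]
  · have h2 := congrArg io two_eq_zero'
    rwa [map_zero, map_ofNat] at h2
  · have h := congrArg (C (R := AA)) zz_rel
    simpa only [map_add, map_one, map_pow, map_zero] using h
  · rw [← map_mul, hac, map_pow]

end Pool.Agent.helper81
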